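import Pool.Agent.H32.RK.Defs

/-!
# Pairs of quadratic forms over a number field: rows, part B

The structure of the correlations and the counting of pairs.
-/

set_option autoImplicit false

open Finset NumberField Pool.Agent.H32.RQ

namespace Pool.Agent.H32.RK

/-! ### The structure of the correlations -/

/-- (PIG) two pigeonholes. -/
def T_PIG (K : Type) [Field K] [NumberField K] : Prop :=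
  ∃ C : ℝ, 1 ≤ C ∧ ∀ (B R : ℝ) (x : Fin 3 → 𝓞 K), 1 ≤ R → Bd B x →
    (∀ l : Fin 3 → 𝓞 K, Bd R l → ∑ i, l i * x i = 0 → l = 0) →
    ∃ l l' : Fin 3 → 𝓞 K, Bd (C * B / R) l ∧ Bd (C * B / R) l' ∧
      ∑ i, l i * x i = 0 ∧ ∑ i, l' i * x i = 0 ∧ ∃ i j, mnr l l' i j ≠ 0

/-- (SPN) the orthogonal module is generated, up to finite index, by small vectors. -/
def T_SPN (K : Type) [Field K] [NumberField K] : Prop :=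
  ∃ C : ℝ, 1 ≤ C ∧ ∀ (s : ℕ) (B R : ℝ) (x : Fin s → 𝓞 K), 3 ≤ s → 1 ≤ R → Bd B x → Sup R x →
    ∀ φ : (Fin s → 𝓞 K) →ₗ[𝓞 K] K,
      (∀ l : Fin s → 𝓞 K, S3 l → Bd (C * B / R) l → ∑ i, l i * x i = 0 → φ l = 0) →
      ∀ i j, φ (Pi.single j (x i) - Pi.single i (x j)) = 0

/-- (STR) the structure lemma. -/
def T_STR (K : Type) [Field K] [NumberField K] : Prop :=
  ∃ C : ℝ, 1 ≤ C ∧ ∀ (s b : ℕ) (c H : ℝ) (x y : Fin s → 𝓞 K) (θ φ : K) (m : Fin s → Fin s → K),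
    3 ≤ s → 1 ≤ b → Gd b c x → Gd b c y → (∃ i j, mnr x y i j ≠ 0) → 0 < H →
    C * (b : ℝ) ^ 4 ≤ c * H → (∀ i l, m i l = m l i) → (∀ i l, InD (m i l)) →
    (∀ i l (w : InfinitePlace K), w (θ * x i * x l + φ * y i * y l - m i l) ≤ 1 / H) →
    ∃ α β : K, ∀ i l, m i l = α * x i * x l + β * y i * y l

/-- (CLS) the denominators. -/
def T_CLS (K : Type) [Field K] [NumberField K] : Prop :=
  ∀ (s : ℕ) (x y : Fin s → 𝓞 K) (α β : K), Prm x → Prm y →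
    (∀ i l, InD (α * x i * x l + β * y i * y l)) →
    ∀ g ∈ gi x y, InD (α * (g : 𝓞 K)) ∧ InD (β * (g : 𝓞 K))

/-- (CL2) the denominator for one vector. -/
def T_CL2 (K : Type) [Field K] [NumberField K] : Prop :=
  ∀ (s : ℕ) (x : Fin s → 𝓞 K) (α : K), Prm x → (∀ i l, InD (α * x i * x l)) → InD α

/-- (NCL) the number of the classes. -/
def T_NCL (K : Type) [Field K] [NumberField K] : Prop :=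
  ∀ (𝔤 : Ideal (𝓞 K)) (S : Finset K), 𝔤 ≠ ⊥ → (∀ β ∈ S, ∀ g ∈ 𝔤, InD (β * (g : 𝓞 K))) →
    (∀ β ∈ S, ∀ β' ∈ S, InD (β - β') → β = β') → S.card ≤ Ideal.absNorm 𝔤

/-- (LIN) a combination which is large at several places. -/
def T_LIN : Prop :=
  ∀ m n : ℕ, ∃ (T : ℕ) (c : ℝ), 0 < c ∧ ∀ v : Fin n → Fin m → ℂ, ∃ t : ℕ, t ≤ T ∧
    ∀ k i, c * ‖v k i‖ ≤ ‖∑ r, v k r * (t : ℂ) ^ (r : ℕ)‖

/-- (DL1) a large minor of the squares. -/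
def T_DL1 : Prop :=
  ∀ (s : ℕ) (B : ℝ) (x y : Fin s → ℂ), (∀ i, ‖x i‖ ≤ B) → (∀ i, ‖y i‖ ≤ B) →
    (∃ i, B < 2 * ‖x i‖) → (∃ i, B < 2 * ‖y i‖) →
    ∃ p q : Mon s, ∀ i j, B ^ 2 * ‖mnr x y i j‖ ≤ 64 * ‖nu x p * nu y q - nu x q * nu y p‖

/-- (DLT) two combinations of the monomials. -/
def T_DLT (K : Type) [Field K] [NumberField K] : Prop :=
  ∀ s : ℕ, ∃ C c : ℝ, 0 < c ∧ ∀ (B : ℝ) (x y : Fin s → 𝓞 K), Bd B x → Bd B y → Bg B x → Bg B y →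
    ∃ a a' : Mon s → ℤ, (∀ p, |(a p : ℝ)| ≤ C ∧ |(a' p : ℝ)| ≤ C) ∧
      ∀ i j (w : InfinitePlace K), c * B ^ 2 * w ((mnr x y i j : 𝓞 K) : K) ≤
        w ((cb a x * cb a' y - cb a' x * cb a y : 𝓞 K) : K)

/-- (CNT) lattice points in a parallelogram. -/
def T_CNT (K : Type) [Field K] [NumberField K] : Prop :=
  ∃ C : ℝ, 1 ≤ C ∧ ∀ (a b a' b' : 𝓞 K) (J : ℝ) (S : Finset (K × K)), a * b' - a' * b ≠ 0 →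
    (∀ w : InfinitePlace K, w ((a * b' - a' * b : 𝓞 K) : K) ≤ J) →
    (∀ q ∈ S, InD q.1 ∧ InD q.2) →
    (∀ q ∈ S, ∀ q' ∈ S, ∀ w : InfinitePlace K, w ((q.1 - q'.1) * a + (q.2 - q'.2) * b) ≤ J ∧
      w ((q.1 - q'.1) * a' + (q.2 - q'.2) * b') ≤ J) →
    (S.card : ℝ) * nm ((a * b' - a' * b : 𝓞 K) : K) ≤ C * J ^ (2 * dg K)

/-- (FRQ) the frequencies: from the model to the field. -/
def T_FRQ (K : Type) [Field K] [NumberField K] : Prop :=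
  ∀ (ι : Type) [Fintype ι] [DecidableEq ι] (ω : Module.Basis ι ℤ (𝓞 K)), ∃ C : ℝ, 1 ≤ C ∧
    ∀ (s A J Q : ℕ) [NeZero Q] (x y : Fin s → 𝓞 K) (z : (ι → ZMod Q) × (ι → ZMod Q)), 1 ≤ A →
    Q = 2 * A * J → z ∈ zs ω Q J x y → ∃ (θ φ : K) (m : Fin s → Fin s → K),
      (∀ l, Q * Algebra.trace ℚ K (θ * ω l) = ((z.1 l).val : ℚ)) ∧
      (∀ l, Q * Algebra.trace ℚ K (φ * ω l) = ((z.2 l).val : ℚ)) ∧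
      (∀ i l, m i l = m l i) ∧ (∀ i l, InD (m i l)) ∧
      ∀ i l (w : InfinitePlace K), w (θ * x i * x l + φ * y i * y l - m i l) ≤ C / A

/-- (ZST) the structure of the frequencies. -/
def T_ZST (K : Type) [Field K] [NumberField K] : Prop :=
  ∀ (ι : Type) [Fintype ι] [DecidableEq ι] (ω : Module.Basis ι ℤ (𝓞 K)) (s : ℕ), 3 ≤ s →
    ∃ C : ℝ, 1 ≤ C ∧ ∀ (b A J Q : ℕ) [NeZero Q] (c : ℝ) (x y : Fin s → 𝓞 K)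
    (D : InfinitePlace K → ℝ), 1 ≤ b → 1 ≤ A → C * (b : ℝ) ^ 4 ≤ c * A → Q = 2 * A * J →
    Gd b c x → Gd b c y → (∀ w, 0 < D w ∧ ∃ i j, D w ≤ w ((mnr x y i j : 𝓞 K) : K)) →
    ∀ z ∈ zs ω Q J x y, ∃ θ φ α β : K,
      (∀ l, Q * Algebra.trace ℚ K (θ * ω l) = ((z.1 l).val : ℚ)) ∧
      (∀ l, Q * Algebra.trace ℚ K (φ * ω l) = ((z.2 l).val : ℚ)) ∧
      (∀ i l, InD (α * x i * x l + β * y i * y l)) ∧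
      (∀ i l (w : InfinitePlace K),
        w ((θ - α) * x i * x l + (φ - β) * y i * y l) ≤ C / A) ∧
      ∀ w : InfinitePlace K, w (θ - α) * D w ≤ C / A

/-- (PX1) the number of the frequencies. -/
def T_PX1 (K : Type) [Field K] [NumberField K] : Prop :=
  ∀ (ι : Type) [Fintype ι] [DecidableEq ι] (ω : Module.Basis ι ℤ (𝓞 K)) (s : ℕ), 3 ≤ s →
    ∃ C : ℝ, 1 ≤ C ∧ ∀ (b A J Q : ℕ) [NeZero Q] (c : ℝ) (x y : Fin s → 𝓞 K)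
    (D : InfinitePlace K → ℝ), 1 ≤ b → 1 ≤ A → C * (b : ℝ) ^ 4 ≤ c * A → Q = 2 * A * J →
    C * (b : ℝ) ^ 16 ≤ J → Gd b c x → Gd b c y →
    (∀ w, 0 < D w ∧ ∃ i j, D w ≤ w ((mnr x y i j : 𝓞 K) : K)) →
    ((zs ω Q J x y).card : ℝ) * ((b : ℝ) ^ (8 * dg K) * pm D) ≤
      C * Ideal.absNorm (gi x y) * (J : ℝ) ^ (2 * dg K)

/-- (PX2) the frequencies are local. -/
def T_PX2 (K : Type) [Field K] [NumberField K] : Prop :=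
  ∀ (ι : Type) [Fintype ι] [DecidableEq ι] (ω : Module.Basis ι ℤ (𝓞 K)) (s : ℕ), 3 ≤ s →
    ∃ C : ℝ, 1 ≤ C ∧ ∀ (b A J Q W : ℕ) [NeZero Q] (c : ℝ) (x y : Fin s → 𝓞 K)
    (D : InfinitePlace K → ℝ), 1 ≤ b → 1 ≤ A → C * (b : ℝ) ^ 4 ≤ c * A → Q = 2 * A * J →
    1 ≤ W → W ∣ Q → Gd b c x → Gd b c y →
    (∀ w, 0 < D w ∧ ∃ i j, D w ≤ w ((mnr x y i j : 𝓞 K) : K)) → (W : 𝓞 K) ∈ gi x y →
    ∀ z ∈ zs ω Q J x y, ∀ m, ∃ a n : ℤ,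
      z.1 m = ((n + a * ((Q / W : ℕ) : ℤ) : ℤ) : ZMod Q) ∧ |(n : ℝ)| ≤ C * J * ∑ w, 1 / D w

/-- (PKP) the trivial bounds. -/
def T_PKP (K : Type) [Field K] [NumberField K] : Prop :=
  ∀ (ι : Type) [Fintype ι] [DecidableEq ι] (ω : Module.Basis ι ℤ (𝓞 K)) (s Q J W T : ℕ)
    [NeZero Q] (x y : Fin s → 𝓞 K), 1 ≤ J → 1 ≤ W → W ∣ Q → T ∣ Q → 2 * W ≤ T →
    0 ≤ pk ω Q J W T x y ∧ pk ω Q J W T x y ≤ pp ω Q J x y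

/-- (PBD) the bounds for independent vectors. -/
def T_PBD (K : Type) [Field K] [NumberField K] : Prop :=
  ∀ (ι : Type) [Fintype ι] [DecidableEq ι] (ω : Module.Basis ι ℤ (𝓞 K)) (s : ℕ), 3 ≤ s →
    ∃ C : ℝ, 1 ≤ C ∧ ∀ (b A J Q W T : ℕ) [NeZero Q] (c : ℝ) (x y : Fin s → 𝓞 K)
    (D : InfinitePlace K → ℝ), 1 ≤ b → 1 ≤ A → C * (b : ℝ) ^ 4 ≤ c * A → Q = 2 * A * J →
    C * (b : ℝ) ^ 16 ≤ J → 1 ≤ W → W ∣ Q → T ∣ Q → 2 * W ≤ T → Gd b c x → Gd b c y →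
    (∀ w, 0 < D w ∧ ∃ i j, D w ≤ w ((mnr x y i j : 𝓞 K) : K)) →
    pp ω Q J x y * ((2 * (A : ℝ)) ^ (2 * dg K) * (b : ℝ) ^ (8 * dg K) * pm D) ≤
      C * Ideal.absNorm (gi x y) ∧
    ((W : 𝓞 K) ∈ gi x y →
      pk ω Q J W T x y * ((2 * (A : ℝ)) ^ (2 * dg K) * (b : ℝ) ^ (8 * dg K) * pm D) * A ≤
        C * Ideal.absNorm (gi x y) * T * ∑ w, 1 / D w)

/-- (DIB) the frequencies for dependent vectors. -/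
def T_DIB (K : Type) [Field K] [NumberField K] : Prop :=
  ∀ (ι : Type) [Fintype ι] [DecidableEq ι] (ω : Module.Basis ι ℤ (𝓞 K)) (s : ℕ), 3 ≤ s →
    ∃ C : ℝ, 1 ≤ C ∧ ∀ (b A J Q : ℕ) [NeZero Q] (c : ℝ) (x : Fin s → 𝓞 K)
    (Z : Finset (ι → ZMod Q)), 1 ≤ b → C ≤ A → C * (b : ℝ) ^ 4 ≤ c * A → Q = 2 * A * J →
    b ^ 8 ≤ J → Gd b c x →
    (∀ t ∈ Z, ∀ (p : Mon s) (l : ι), |(lf ω Q t (nu x p) l).valMinAbs| < (J : ℤ)) →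
    (Z.card : ℝ) * (b : ℝ) ^ (8 * dg K) ≤ C * (J : ℝ) ^ dg K

/-- (DIA) the bound for dependent vectors. -/
def T_DIA (K : Type) [Field K] [NumberField K] : Prop :=
  ∀ (ι : Type) [Fintype ι] [DecidableEq ι] (ω : Module.Basis ι ℤ (𝓞 K)) (s : ℕ), 3 ≤ s →
    ∃ C : ℝ, 1 ≤ C ∧ ∀ (b A J Q : ℕ) [NeZero Q] (c : ℝ) (x y : Fin s → 𝓞 K) (u : 𝓞 K), 1 ≤ b →
    C ≤ A → C * (b : ℝ) ^ 4 ≤ c * A → Q = 2 * A * J → b ^ 8 ≤ J → Gd b c x →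
    (∀ i, y i = u * x i) → pp ω Q J x y * (2 * A * (b : ℝ) ^ 8) ^ dg K ≤ C

/-- (DEP) dependent primitive vectors. -/
def T_DEP (K : Type) [Field K] [NumberField K] : Prop :=
  ∀ (s : ℕ) (x y : Fin s → 𝓞 K), Prm x → Prm y → (∀ i j, mnr x y i j = 0) →
    ∃ u : (𝓞 K)ˣ, ∀ i, y i = u * x i

/-! ### Counting pairs of vectors -/

/-- (PA1) a count of pairs. -/
def T_PA1 (K : Type) [Field K] [NumberField K] : Prop :=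
  ∃ C : ℝ, 1 ≤ C ∧ ∀ (x₀ z₀ : 𝓞 K) (𝔤 : Ideal (𝓞 K)) (D : InfinitePlace K → ℝ) (B κ : ℝ)
    (S : Finset (𝓞 K × 𝓞 K)), 𝔤 ≠ ⊥ → x₀ ≠ 0 → z₀ ∈ 𝔤 → 1 ≤ κ → 0 < B →
    (∀ w : InfinitePlace K, B ≤ κ * w (x₀ : K)) → (∀ w, 0 < D w) →
    (∀ q ∈ S, (∀ w : InfinitePlace K, w (q.1 : K) ≤ B) ∧ q.2 ∈ 𝔤 ∧
      ∀ w : InfinitePlace K, w ((x₀ * q.2 - z₀ * q.1 : 𝓞 K) : K) ≤ D w) →
    (∃ ξ ζ : 𝓞 K, ζ ∈ 𝔤 ∧ x₀ * ζ - z₀ * ξ ≠ 0 ∧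
      ∀ w : InfinitePlace K, w ((x₀ * ζ - z₀ * ξ : 𝓞 K) : K) ≤ D w) →
    (S.card : ℝ) * Ideal.absNorm 𝔤 ≤ C * κ ^ dg K * pm D

/-- (PCN) the number of pairs with small minors, modulo the first vector. -/
def T_PCN (K : Type) [Field K] [NumberField K] : Prop :=
  ∀ s : ℕ, ∃ C : ℝ, 1 ≤ C ∧ ∀ (B : ℝ) (𝔤 : Ideal (𝓞 K)) (D : InfinitePlace K → ℝ)
    (S : Finset ((Fin s → 𝓞 K) × (Fin s → 𝓞 K))), 1 ≤ B → 𝔤 ≠ ⊥ → (∀ w, 0 < D w) →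
    (∀ q ∈ S, Bd B q.1 ∧ Bg B q.1 ∧ (∀ i, q.2 i ∈ 𝔤) ∧
      (∀ i j (w : InfinitePlace K), w ((mnr q.1 q.2 i j : 𝓞 K) : K) ≤ D w) ∧
      ∃ i j, mnr q.1 q.2 i j ≠ 0) →
    (∀ q ∈ S, ∀ q' ∈ S, q.1 = q'.1 → (∃ t ∈ 𝔤, ∀ i, q.2 i - q'.2 i = t * q.1 i) → q = q') →
    (S.card : ℝ) ≤ C * B ^ (2 * dg K) * (pm D / Ideal.absNorm 𝔤) ^ (s - 1)

/-- (PAG) the number of pairs of good vectors with small minors in `𝔤`. -/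
def T_PAG (K : Type) [Field K] [NumberField K] : Prop :=
  ∀ s : ℕ, ∃ C : ℝ, 1 ≤ C ∧ ∀ (b : ℕ) (c : ℝ) (𝔤 : Ideal (𝓞 K)) (D : InfinitePlace K → ℝ)
    (S : Finset ((Fin s → 𝓞 K) × (Fin s → 𝓞 K))), 1 ≤ b → 𝔤 ≠ ⊥ → (∀ w, 0 < D w) →
    (∀ q ∈ S, Gd b c q.1 ∧ Gd b c q.2 ∧ (∃ i j, mnr q.1 q.2 i j ≠ 0) ∧ gi q.1 q.2 ≤ 𝔤 ∧
      ∀ i j (w : InfinitePlace K), w ((mnr q.1 q.2 i j : 𝓞 K) : K) ≤ D w) →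
    (S.card : ℝ) ≤ C * (b : ℝ) ^ (8 * dg K) * (pm D / Ideal.absNorm 𝔤) ^ (s - 1)

open Classical in
/-- (SMM) the sum over the pairs. -/
def T_SMM (K : Type) [Field K] [NumberField K] : Prop :=
  ∀ s : ℕ, 6 ≤ s → ∃ C : ℝ, 1 ≤ C ∧ ∀ (α : Type) (P : Finset α) (G : α → Ideal (𝓞 K))
    (D : α → InfinitePlace K → ℝ) (Z : α → Prop) (M κ C₀ : ℝ) (w₀ : ℕ), 1 ≤ M → 0 ≤ C₀ →
    0 ≤ κ → 1 ≤ w₀ →
    (∀ i ∈ P, G i ≠ ⊥ ∧ (∀ v, 0 < D i v ∧ D i v ≤ M) ∧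
      (Ideal.absNorm (G i) : ℝ) ≤ pm (D i)) →
    (∀ i ∈ P, ¬ Z i → w₀ < Ideal.absNorm (G i)) →
    (∀ (𝔤 : Ideal (𝓞 K)) (E : InfinitePlace K → ℝ), 𝔤 ≠ ⊥ → (∀ v, 0 < E v) →
      ((P.filter fun i => G i = 𝔤 ∧ ∀ v, D i v ≤ E v).card : ℝ) ≤
        C₀ * (pm E / Ideal.absNorm 𝔤) ^ (s - 1)) →
    ∑ i ∈ P, (Ideal.absNorm (G i) : ℝ) ^ 2 / pm (D i) ^ 2 *
      (if Z i then κ * ∑ v, 1 / D i v else 1) ≤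
      C * C₀ * M ^ (dg K * (s - 3) - 1) * (M / w₀ + κ)

open Classical in
/-- (BDS) the vectors with a small relation are rare. -/
def T_BDS (K : Type) [Field K] [NumberField K] : Prop :=
  ∀ s : ℕ, ∃ C : ℝ, 1 ≤ C ∧ ∀ B R : ℝ, 1 ≤ B → 1 ≤ R →
    (((vk K s B).filter fun x => ¬ Sup R x).card : ℝ) ≤
      C * R ^ (3 * dg K) * B ^ (dg K * (s - 1))

open Classical in
/-- (BDI) the vectors which are not isolated are rare. -/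
def T_BDI (K : Type) [Field K] [NumberField K] : Prop :=
  ∀ s : ℕ, ∃ C : ℝ, 1 ≤ C ∧ ∀ B D : ℝ, 1 ≤ B → 0 < D →
    (((vk K s B).filter fun x => Bg B x ∧ ¬ Iso D x).card : ℝ) ≤
      C * B ^ (2 * dg K) * (D ^ dg K) ^ (s - 1)

/-- (SEC) the second moment. -/
def T_SEC (K : Type) [Field K] [NumberField K] : Prop :=
  ∀ (ι : Type) [Fintype ι] [DecidableEq ι] (ω : Module.Basis ι ℤ (𝓞 K)) (s : ℕ), 6 ≤ s →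
    ∃ C : ℝ, 1 ≤ C ∧ ∀ (b A J Q W T w₀ : ℕ) [NeZero Q] (c δ : ℝ), 1 ≤ b → C ≤ A →
    C * (b : ℝ) ^ 4 ≤ c * A → Q = 2 * A * J → C * (b : ℝ) ^ 16 ≤ J → 1 ≤ W → W ∣ Q → T ∣ Q →
    2 * W ≤ T → 1 ≤ w₀ →
    (∀ 𝔤 : Ideal (𝓞 K), 𝔤 ≠ ⊥ → Ideal.absNorm 𝔤 ≤ w₀ → (W : 𝓞 K) ∈ 𝔤) → 0 ≤ δ →
    (T : ℝ) ≤ δ * (A * (b : ℝ) ^ 8) →
    ∑ x ∈ GS K s b c, ∑ y ∈ GS K s b c, 2 * pk ω Q J W T x y * pp ω Q J x y ≤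
      C * ((((b : ℝ) ^ (4 * (s - 4)) / (2 * (A : ℝ)) ^ 2) ^ dg K) ^ 2 * (1 / w₀ + δ) +
        ((b : ℝ) ^ (4 * (s - 4)) / (2 * (A : ℝ)) ^ 2) ^ dg K)

end Pool.Agent.H32.RK
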