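import Pool.Agent.H32.RK.TargetsB

/-!
Board hpk_modules, row DL1: a large minor of the squares.
-/

set_option autoImplicit false

open Finset NumberField Pool.Agent.H32.RQ Pool.Agent.H32.RK

namespace Pool.Agent.H32.RK

theorem pf_DL1 : T_DL1 := by
  intro s B x y hx hy ⟨i, hi⟩ ⟨l', hl'⟩
  have hB : 0 < B := by
    have h1 := hx i
    have h2 := norm_nonneg (x i)
    rcases h2.lt_or_eq with h3 | h3
    · linarith
    · rw [← h3] at hi h1
      linarith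
  obtain ⟨⟨a, c⟩, -, hac⟩ := Finset.exists_max_image (univ : Finset (Fin s × Fin s))
    (fun p : Fin s × Fin s => ‖mnr x y p.1 p.2‖) ⟨(i, i), mem_univ _⟩
  set dm : ℝ := ‖mnr x y a c‖ with hdm
  have hall : ∀ j k, ‖mnr x y j k‖ ≤ dm := fun j k => hac (j, k) (mem_univ _)
  have hdm0 : 0 ≤ dm := norm_nonneg _
  have key : ∀ z : ℂ, B ^ 2 * dm ≤ 64 * ‖z‖ → ∀ j k, B ^ 2 * ‖mnr x y j k‖ ≤ 64 * ‖z‖ := by
    intro z hz j k
    exact (mul_le_mul_of_nonneg_left (hall j k) (by positivity)).trans hz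
  -- a large minor with the index `i`
  have hl : ∃ l, dm ≤ 4 * ‖mnr x y i l‖ := by
    have h1 : x i * mnr x y a c = x a * mnr x y i c - x c * mnr x y i a := by
      unfold mnr
      ring
    have h2 : ‖x i‖ * dm ≤ B * ‖mnr x y i c‖ + B * ‖mnr x y i a‖ := by
      rw [hdm, ← norm_mul, h1]
      refine (norm_sub_le _ _).trans ?_
      rw [norm_mul, norm_mul]
      exact add_le_add (mul_le_mul_of_nonneg_right (hx a) (norm_nonneg _))
        (mul_le_mul_of_nonneg_right (hx c) (norm_nonneg _))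
    have h4 : B * dm ≤ B * (2 * ‖mnr x y i c‖ + 2 * ‖mnr x y i a‖) := by
      have h5 : B * dm ≤ 2 * ‖x i‖ * dm := mul_le_mul_of_nonneg_right hi.le hdm0
      linarith
    have h5 : dm ≤ 2 * ‖mnr x y i c‖ + 2 * ‖mnr x y i a‖ := le_of_mul_le_mul_left h4 hB
    rcases le_total ‖mnr x y i a‖ ‖mnr x y i c‖ with h6 | h6
    · exact ⟨c, by linarith⟩
    · exact ⟨a, by linarith⟩
  obtain ⟨l, hl⟩ := hl
  by_cases h8 : B ≤ 8 * ‖y i‖
  · obtain ⟨q, hqx, hqy⟩ : ∃ q : Mon s, nu x q = x i * x l ∧ nu y q = y i * y l := by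
      rcases le_total i l with h | h
      · exact ⟨⟨(i, l), h⟩, rfl, rfl⟩
      · exact ⟨⟨(l, i), h⟩, mul_comm _ _, mul_comm _ _⟩
    refine ⟨⟨(i, i), le_rfl⟩, q, key _ ?_⟩
    have h1 : nu x (⟨(i, i), le_rfl⟩ : Mon s) * nu y q - nu x q * nu y (⟨(i, i), le_rfl⟩ : Mon s) =
        x i * y i * mnr x y i l := by
      rw [hqx, hqy]
      unfold nu mnr
      ring
    rw [h1, norm_mul, norm_mul]
    have h2 : B * B ≤ (2 * ‖x i‖) * (8 * ‖y i‖) := mul_le_mul hi.le h8 hB.le (by positivity)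
    have h3 : B * B * dm ≤ (2 * ‖x i‖) * (8 * ‖y i‖) * (4 * ‖mnr x y i l‖) :=
      mul_le_mul h2 hl hdm0 (by positivity)
    calc B ^ 2 * dm = B * B * dm := by ring
      _ ≤ (2 * ‖x i‖) * (8 * ‖y i‖) * (4 * ‖mnr x y i l‖) := h3
      _ = 64 * (‖x i‖ * ‖y i‖ * ‖mnr x y i l‖) := by ring
  · push Not at h8
    refine ⟨⟨(i, i), le_rfl⟩, ⟨(l', l'), le_rfl⟩, key _ ?_⟩
    have h1 : nu x (⟨(i, i), le_rfl⟩ : Mon s) * nu y (⟨(l', l'), le_rfl⟩ : Mon s) -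
        nu x (⟨(l', l'), le_rfl⟩ : Mon s) * nu y (⟨(i, i), le_rfl⟩ : Mon s) =
        (x i * y l') ^ 2 - (x l' * y i) ^ 2 := by
      unfold nu
      ring
    rw [h1]
    have h9 : (‖x i‖ * ‖y l'‖) ^ 2 - (‖x l'‖ * ‖y i‖) ^ 2 ≤
        ‖(x i * y l') ^ 2 - (x l' * y i) ^ 2‖ := by
      refine le_trans (le_of_eq ?_) (norm_sub_norm_le _ _)
      rw [norm_pow, norm_pow, norm_mul, norm_mul]
    have h2 : B * B ≤ (2 * ‖x i‖) * (2 * ‖y l'‖) := mul_le_mul hi.le hl'.le hB.le (by positivity)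
    have h3 : ‖x l'‖ * (8 * ‖y i‖) ≤ B * B := mul_le_mul (hx l') h8.le (by positivity) hB.le
    have h4 : (B * B) ^ 2 ≤ ((2 * ‖x i‖) * (2 * ‖y l'‖)) ^ 2 :=
      pow_le_pow_left₀ (by positivity) h2 2
    have h5 : (‖x l'‖ * (8 * ‖y i‖)) ^ 2 ≤ (B * B) ^ 2 :=
      pow_le_pow_left₀ (by positivity) h3 2
    have h6 : dm ≤ 2 * (B * B) := by
      rw [hdm]
      unfold mnr
      refine (norm_sub_le _ _).trans ?_
      rw [norm_mul, norm_mul]
      have h7 : ‖x a‖ * ‖y c‖ ≤ B * B := mul_le_mul (hx a) (hy c) (norm_nonneg _) hB.le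
      have h9 : ‖x c‖ * ‖y a‖ ≤ B * B := mul_le_mul (hx c) (hy a) (norm_nonneg _) hB.le
      linarith
    have h7 : B ^ 2 * dm ≤ 2 * (B * B) ^ 2 := by
      calc B ^ 2 * dm ≤ B ^ 2 * (2 * (B * B)) := mul_le_mul_of_nonneg_left h6 (by positivity)
        _ = 2 * (B * B) ^ 2 := by ring
    have h10 : 0 ≤ (B * B) ^ 2 := by positivity
    have h11 : 64 * ((‖x i‖ * ‖y l'‖) ^ 2 - (‖x l'‖ * ‖y i‖) ^ 2) =
        4 * ((2 * ‖x i‖) * (2 * ‖y l'‖)) ^ 2 - (‖x l'‖ * (8 * ‖y i‖)) ^ 2 := by ring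
    linarith

end Pool.Agent.H32.RK
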