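import Pool.Agent.H32.RK.Defs

/-!
# Pairs of quadratic forms over a number field: rows, part E

The infinite places and the end.
-/

set_option autoImplicit false

open Finset NumberField Pool.Agent.H32.RQ

namespace Pool.Agent.H32.RK

/-! ### The infinite places -/

/-- (LPC) the box is equidistributed at every infinite place. -/
def T_LPC (K : Type) [Field K] [NumberField K] : Prop :=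
  ∀ (ι : Type) [Fintype ι] [DecidableEq ι] (ω : Module.Basis ι ℤ (𝓞 K)), ∃ C : ℝ, 1 ≤ C ∧
    ∀ (A : ℕ) (w : InfinitePlace K), 1 ≤ A →
    EqD w.mult C A (bo ι A) fun v => w.embedding (el ω v : K)

/-- (RUV) the number of the pairs of nearly proportional vectors. -/
def T_RUV : Prop :=
  ∀ (e n : ℕ) (C₁ K₁ : ℝ), 1 ≤ e → 2 ≤ n → 1 ≤ C₁ → 1 ≤ K₁ → ∃ C : ℝ, 1 ≤ C ∧
    ∀ (α : Type) (X : Finset α) (σ : α → ℂ) (A : ℝ) (N : ℕ), 1 ≤ N → C * N ≤ A →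
    EqD e C₁ A X σ → ∀ a b : Fin n → ℂ, (∀ j, ‖a j‖ ≤ K₁ * A) → (∀ j, ‖b j‖ ≤ K₁ * A) →
    ∀ S : Finset ((Fin n → α) × (Fin n → α)),
    (∀ q ∈ S, (∀ j, q.1 j ∈ X ∧ q.2 j ∈ X) ∧ ∀ j l,
      ‖(σ (q.1 j) + a j) * (σ (q.2 l) + b l) - (σ (q.1 l) + a l) * (σ (q.2 j) + b j)‖ ≤
        K₁ * A ^ 2 / N) →
    (S.card : ℝ) * (N : ℝ) ^ (e * (n - 1)) ≤ C * (X.card : ℝ) ^ (2 * n)

/-- (RFX) the number of the pairs which are bad at a given vector. -/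
def T_RFX : Prop :=
  ∀ (e s : ℕ) (C₁ K₁ : ℝ), 1 ≤ e → 3 ≤ s → 1 ≤ C₁ → 1 ≤ K₁ → ∃ C : ℝ, 1 ≤ C ∧
    ∀ (α : Type) (X : Finset α) (σ : α → ℂ) (A : ℝ) (N : ℕ), 1 ≤ N → C * N ≤ A →
    EqD e C₁ A X σ → ∀ (i₀ : Fin s) (x : Fin s → ℂ), x i₀ = 1 → (∀ j, ‖x j‖ ≤ 1) →
    ∀ S : Finset (Fin 2 → Mon s → α),
    (∀ c ∈ S, (∀ i p, c i p ∈ X) ∧ (∀ i, ‖qf (fun p => σ (c i p)) x‖ ≤ K₁ * A / N) ∧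
      ∀ j l, ‖jm (fun i p => σ (c i p)) x j l‖ ≤ K₁ * A ^ 2 / N) →
    (S.card : ℝ) * (N : ℝ) ^ (e * s) ≤ C * (X.card : ℝ) ^ (2 * md s)

open Classical in
/-- (RNB) the pairs which are bad at an infinite place are rare. -/
def T_RNB (K : Type) [Field K] [NumberField K] : Prop :=
  ∀ (ι : Type) [Fintype ι] [DecidableEq ι] (ω : Module.Basis ι ℤ (𝓞 K)) (s : ℕ), 3 ≤ s →
    ∃ C : ℝ, 1 ≤ C ∧ ∀ d : ℝ, 0 < d → d ≤ 1 → ∃ A₀ : ℕ, ∀ A : ℕ, A₀ ≤ A →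
    ∀ w : InfinitePlace K, (((bx ι s A).filter fun c => RN w d A (ec ω c)).card : ℝ) ≤
      C * d * (2 * (A : ℝ) + 1) ^ (2 * md s * Fintype.card ι)

/-- (RZB) zeros at the infinite places. -/
def T_RZB (K : Type) [Field K] [NumberField K] : Prop :=
  ∀ (s A : ℕ) (d : ℝ) (c : Fin 2 → Mon s → 𝓞 K), LS c →
    ∀ w : InfinitePlace K, RB w d 0 A c ∨ RN w d A c

/-- (NEW) the implicit function theorem for two quadratic forms. -/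
def T_NEW : Prop :=
  ∀ (𝕜 : Type) [RCLike 𝕜] (s : ℕ) (d : ℝ), 0 < d → ∃ r c₁ : ℝ, 0 < r ∧ 0 < c₁ ∧
    ∀ (f : Fin 2 → Mon s → 𝕜) (x : Fin s → 𝕜) (a b : Fin s), (∀ i p, ‖f i p‖ ≤ 1) →
    (∀ j, ‖x j‖ ≤ 1) → (∀ i, ‖qf (f i) x‖ ≤ r) → d ≤ ‖jm f x a b‖ →
    ∀ w : Fin s → 𝕜, (∀ j, ‖w j‖ ≤ c₁) →
    ∃ y : Fin s → 𝕜, (∀ j, j ≠ a → j ≠ b → y j = x j + w j) ∧ (∀ j, ‖y j - x j‖ ≤ 1 / 16) ∧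
      ∀ i, qf (f i) y = 0

/-- (SEP) separated sets in discs. -/
def T_SEP : Prop := SepD ℝ 1 ∧ SepD ℂ 2

/-- (CUB) many disjoint polydiscs on which both forms are small. -/
def T_CUB : Prop :=
  ∀ (𝕜 : Type) [RCLike 𝕜] (e s : ℕ) (d : ℝ), SepD 𝕜 e → 0 < d → ∃ r c₁ : ℝ, 0 < r ∧ 0 < c₁ ∧
    ∀ (f : Fin 2 → Mon s → 𝕜) (x : Fin s → 𝕜), (∀ i p, ‖f i p‖ ≤ 1) →
    (∀ j, ‖x j‖ ≤ 1) → (∃ j, ‖x j‖ = 1) → (∀ i, ‖qf (f i) x‖ ≤ r) →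
    (∃ j l, d ≤ ‖jm f x j l‖) →
    ∀ ρ : ℝ, 0 < ρ → ρ ≤ c₁ → ∃ Y : Finset (Fin s → 𝕜),
      (c₁ / ρ) ^ (e * (s - 2)) ≤ (Y.card : ℝ) ∧
      (∀ y ∈ Y, (∀ i, qf (f i) y = 0) ∧ (∀ j, ‖y j‖ ≤ 7 / 8) ∧ ∃ j, 5 / 8 ≤ ‖y j‖) ∧
      ∀ y ∈ Y, ∀ y' ∈ Y, y ≠ y' → ∃ j, 2 * ρ < ‖y j - y' j‖

/-- (CUW) the same at an infinite place. -/
def T_CUW (K : Type) [Field K] [NumberField K] : Prop :=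
  ∀ (s : ℕ) (d C₁ : ℝ), 0 < d → 1 ≤ C₁ → ∃ r c₁ : ℝ, 0 < r ∧ 0 < c₁ ∧
    ∀ (w : InfinitePlace K) (A : ℕ) (c : Fin 2 → Mon s → 𝓞 K), 1 ≤ A →
    (∀ i p, w (c i p : K) ≤ C₁ * A) → RB w d r A c → ∀ ρ : ℝ, 0 < ρ → ρ ≤ c₁ →
    ∃ Y : Finset (Fin s → ℂ), (c₁ / ρ) ^ (w.mult * (s - 2)) ≤ (Y.card : ℝ) ∧
      (∀ y ∈ Y, Rl w y ∧ ∀ z : Fin s → ℂ, (∀ j, ‖z j - y j‖ ≤ ρ) →
        (∀ j, ‖z j‖ ≤ 1) ∧ (∃ j, 1 / 2 < ‖z j‖) ∧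
          ∀ i, ‖qf (ce w c i) z‖ ≤ C₁ * A * (s * (s + 1)) * ρ) ∧
      ∀ y ∈ Y, ∀ y' ∈ Y, y ≠ y' → ∃ j, 2 * ρ < ‖y j - y' j‖

/-- (CLA) integers in a residue class and a polydisc. -/
def T_CLA (K : Type) [Field K] [NumberField K] : Prop :=
  ∃ c L₁ : ℝ, 0 < c ∧ ∀ (W : ℕ) (L : ℝ) (ζ : InfinitePlace K → ℂ) (a : 𝓞 K), 1 ≤ W →
    L₁ * W ≤ L → (∀ w, w.IsReal → (ζ w).im = 0) →
    ∃ S : Finset (𝓞 K), c * (L / W) ^ dg K ≤ (S.card : ℝ) ∧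
      ∀ x ∈ S, (∃ y : 𝓞 K, x = a + W * y) ∧
        ∀ w : InfinitePlace K, ‖w.embedding (x : K) - ζ w‖ ≤ L

/-- (SIE) primitive integral vectors in a polydisc and a residue class. -/
def T_SIE (K : Type) [Field K] [NumberField K] : Prop :=
  ∀ s : ℕ, 6 ≤ s → ∃ (w₁ : ℕ) (c : ℝ), 0 < c ∧ ∀ (W w : ℕ) (κ : ℝ), w₁ ≤ w → 1 ≤ W →
    (∀ 𝔭 : Ideal (𝓞 K), 𝔭.IsPrime → 𝔭 ≠ ⊥ → Ideal.absNorm 𝔭 ≤ w → (W : 𝓞 K) ∈ 𝔭) → 0 < κ →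
    ∃ L₀ : ℝ, ∀ L : ℝ, L₀ ≤ L → ∀ ζ : Fin s → InfinitePlace K → ℂ,
    (∀ j w, w.IsReal → (ζ j w).im = 0) → (∀ j w, ‖ζ j w‖ ≤ κ * L) → ∀ a : Fin s → 𝓞 K,
    Prm (fun j => Ideal.Quotient.mk (Ideal.span {(W : 𝓞 K)}) (a j)) →
    ∃ S : Finset (Fin s → 𝓞 K), c * (L / W) ^ (dg K * s) ≤ (S.card : ℝ) ∧
      ∀ x ∈ S, Prm x ∧ (∀ j, ∃ y : 𝓞 K, x j = a j + W * y) ∧
        ∀ j (w : InfinitePlace K), ‖w.embedding (x j : K) - ζ j w‖ ≤ L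

open Classical in
/-- (LOC) the lower bound for the number of local zeros. -/
def T_LOC (K : Type) [Field K] [NumberField K] : Prop :=
  ∀ (ι : Type) [Fintype ι] [DecidableEq ι] (ω : Module.Basis ι ℤ (𝓞 K)) (s : ℕ) (d : ℝ)
    (t w₀ : ℕ), 6 ≤ s → 0 < d → ∃ (r η δ₀ : ℝ) (w₁ : ℕ), 0 < r ∧ 0 < η ∧ 0 < δ₀ ∧
    ∀ (W w : ℕ) (𝔴₀ 𝔴₁ : Ideal (𝓞 K)) (c' δ : ℝ), 1 ≤ W → 0 < c' →
    Ideal.span {(W : 𝓞 K)} = 𝔴₀ * 𝔴₁ → 𝔴₀ ⊔ 𝔴₁ = ⊤ →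
    (∀ 𝔭 : Ideal (𝓞 K), 𝔭.IsPrime → 𝔴₀ ≤ 𝔭 → Ideal.absNorm 𝔭 ≤ w₀) →
    (∀ 𝔭 : Ideal (𝓞 K), 𝔭.IsPrime → 𝔭 ≠ ⊥ → Ideal.absNorm 𝔭 ≤ w₀ → 𝔴₀ ≤ 𝔭 ^ (2 * t)) →
    w₁ ≤ w → (∀ 𝔭 : Ideal (𝓞 K), 𝔭.IsPrime → 𝔭 ≠ ⊥ → Ideal.absNorm 𝔭 ≤ w → (W : 𝓞 K) ∈ 𝔭) →
    0 < δ → δ ≤ δ₀ → ∃ b₀ : ℕ, ∀ b A : ℕ, b₀ ≤ b → 1 ≤ A → ∀ c ∈ bx ι s A,
    (∀ w, RB w d r A (ec ω c)) →
    (∀ 𝔭 : Ideal (𝓞 K), 𝔭.IsPrime → 𝔭 ≠ ⊥ → Ideal.absNorm 𝔭 ≤ w₀ → PR t 𝔭 (ec ω c)) →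
    Ideal.absNorm 𝔴₁ ^ (s - 2) ≤ 2 * am (cq 𝔴₁ (ec ω c)) →
    η * δ ^ (2 * dg K) * (b : ℝ) ^ (4 * s * dg K) / (W : ℝ) ^ (2 * dg K) ≤
      (((GS K s b c').filter fun x => ∀ i m, (W : ℤ) ∣ ω.repr (qf (ec ω c i) x) m ∧
        |((ω.repr (qf (ec ω c i) x) m : ℤ) : ℝ)| ≤ δ * A * (b : ℝ) ^ 8).card : ℝ)

/-! ### The end -/

open Classical in
/-- (MN) almost all robust pairs have a small zero. -/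
def T_MN (K : Type) [Field K] [NumberField K] : Prop :=
  ∀ (ι : Type) [Fintype ι] [DecidableEq ι] (ω : Module.Basis ι ℤ (𝓞 K)) (s : ℕ) (d : ℝ)
    (t w₀ : ℕ), 6 ≤ s → 0 < d → ∃ r : ℝ, 0 < r ∧ ∀ ε : ℝ, 0 < ε →
    ∃ (𝔴₁ : Ideal (𝓞 K)) (C : ℝ) (A₀ : ℕ), 𝔴₁ ≠ ⊥ ∧
    (∀ 𝔭 : Ideal (𝓞 K), 𝔭.IsPrime → 𝔴₁ ≤ 𝔭 → w₀ < Ideal.absNorm 𝔭) ∧ ∀ A : ℕ, A₀ ≤ A →
    (((bx ι s A).filter fun c => (∀ w, RB w d r A (ec ω c)) ∧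
      (∀ 𝔭 : Ideal (𝓞 K), 𝔭.IsPrime → 𝔭 ≠ ⊥ → Ideal.absNorm 𝔭 ≤ w₀ → PR t 𝔭 (ec ω c)) ∧
      Ideal.absNorm 𝔴₁ ^ (s - 2) ≤ 2 * am (cq 𝔴₁ (ec ω c)) ∧ ¬ SZ C A (ec ω c)).card : ℝ) ≤
      ε * (2 * (A : ℝ) + 1) ^ (2 * md s * Fintype.card ι)

/-- (CRD) the number of the pairs. -/
def T_CRD : Prop :=
  ∀ (ι : Type) [Fintype ι] [DecidableEq ι] (s A : ℕ), 2 * md s = s * (s + 1) ∧
    (bx ι s A).card = (2 * A + 1) ^ (2 * md s * Fintype.card ι)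

/-- (PS1) the pairs close to the special pair are robust. -/
def T_PS1 (K : Type) [Field K] [NumberField K] : Prop :=
  ∀ (ι : Type) [Fintype ι] [DecidableEq ι] (ω : Module.Basis ι ℤ (𝓞 K)) (s : ℕ), 3 ≤ s →
    ∃ C d₁ r₁ : ℝ, 1 ≤ C ∧ 0 < d₁ ∧ 0 < r₁ ∧ ∀ (𝔳 : Ideal (𝓞 K)) (A : ℕ) (r : ℝ)
    (c : Fin 2 → Mon s → ι → ℤ), 0 < r → r ≤ r₁ → c ∈ sp ω s 𝔳 A r →
    (∀ w : InfinitePlace K, RB w d₁ (C * r) A (ec ω c)) ∧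
    ∀ 𝔭 : Ideal (𝓞 K), 𝔭.IsPrime → 𝔭 ≠ ⊥ → 𝔳 ≤ 𝔭 ^ 2 → PR 1 𝔭 (ec ω c)

/-- (PS2) the number of the pairs close to the special pair. -/
def T_PS2 (K : Type) [Field K] [NumberField K] : Prop :=
  ∀ (ι : Type) [Fintype ι] [DecidableEq ι] (ω : Module.Basis ι ℤ (𝓞 K)) (s : ℕ)
    (𝔳 : Ideal (𝓞 K)) (r : ℝ), 𝔳 ≠ ⊥ → 0 < r → r ≤ 1 / 2 → ∃ A₀ : ℕ, ∀ A : ℕ, A₀ ≤ A →
    ((r * A / 2) ^ Fintype.card ι / Ideal.absNorm 𝔳) ^ (2 * md s) ≤ ((sp ω s 𝔳 A r).card : ℝ)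

open Classical in
/-- (PS3) the pairs close to the special pair which are bad modulo an ideal. -/
def T_PS3 (K : Type) [Field K] [NumberField K] : Prop :=
  ∀ (ι : Type) [Fintype ι] [DecidableEq ι] (ω : Module.Basis ι ℤ (𝓞 K)) (s : ℕ),
    ∃ C : ℝ, 1 ≤ C ∧ ∀ (𝔳 𝔪 : Ideal (𝓞 K)) (r : ℝ), 𝔳 ≠ ⊥ → 𝔪 ≠ ⊥ → 0 < r → r ≤ 1 / 2 →
    𝔳 ⊔ 𝔪 = ⊤ → ∃ A₀ : ℕ, ∀ A : ℕ, A₀ ≤ A → ∀ E : Set (Fin 2 → Mon s → 𝓞 K ⧸ 𝔪),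
    (((sp ω s 𝔳 A r).filter fun c => cq 𝔪 (ec ω c) ∈ E).card : ℝ) *
      (Ideal.absNorm 𝔪 : ℝ) ^ (2 * md s) ≤
      C * ((r * A) ^ Fintype.card ι / Ideal.absNorm 𝔳) ^ (2 * md s) * Nat.card E

open Classical in
/-- (POS) a positive proportion of the pairs has a zero. -/
def T_POS (K : Type) [Field K] [NumberField K] : Prop :=
  ∀ (ι : Type) [Fintype ι] [DecidableEq ι] (ω : Module.Basis ι ℤ (𝓞 K)) (s : ℕ), 6 ≤ s →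
    ∃ δ : ℝ, 0 < δ ∧ ∃ A₀ : ℕ, ∀ A : ℕ, A₀ ≤ A →
    δ * (2 * (A : ℝ) + 1) ^ (2 * md s * Fintype.card ι) ≤
      (((bx ι s A).filter fun c => ∃ x : Fin s → 𝓞 K, x ≠ 0 ∧
        ∀ i, qf (ec ω c i) x = 0).card : ℝ)

open Classical in
/-- (HP) almost all locally soluble pairs have a small zero. -/
def T_HP (K : Type) [Field K] [NumberField K] : Prop :=
  ∀ (ι : Type) [Fintype ι] [DecidableEq ι] (ω : Module.Basis ι ℤ (𝓞 K)) (s : ℕ), 6 ≤ s →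
    ∀ ε : ℝ, 0 < ε → ∃ (C : ℝ) (A₀ : ℕ), ∀ A : ℕ, A₀ ≤ A →
    (((bx ι s A).filter fun c => LS (ec ω c) ∧ ¬ SZ C A (ec ω c)).card : ℝ) ≤
      ε * (2 * (A : ℝ) + 1) ^ (2 * md s * Fintype.card ι)

/-! ### Smoothness -/

/-- (SMP) the pairs which are not smooth are zeros of a polynomial. -/
def T_SMP : Prop :=
  ∀ s : ℕ, ∃ P : MvPolynomial (Fin 2 × Mon s) ℤ, P ≠ 0 ∧
    ∀ (K : Type) [Field K] [NumberField K] (c : Fin 2 → Mon s → 𝓞 K),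
    MvPolynomial.aeval (fun q : Fin 2 × Mon s => c q.1 q.2) P ≠ 0 → Sm c

open Classical in
/-- (SZL) a polynomial has few zeros in the box. -/
def T_SZL (K : Type) [Field K] [NumberField K] : Prop :=
  ∀ (ι : Type) [Fintype ι] [DecidableEq ι] (ω : Module.Basis ι ℤ (𝓞 K)) (s : ℕ)
    (P : MvPolynomial (Fin 2 × Mon s) ℤ), P ≠ 0 → ∀ ε : ℝ, 0 < ε → ∃ A₀ : ℕ, ∀ A : ℕ, A₀ ≤ A →
    (((bx ι s A).filter fun c =>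
      MvPolynomial.aeval (fun q : Fin 2 × Mon s => ec ω c q.1 q.2) P = 0).card : ℝ) ≤
      ε * (2 * (A : ℝ) + 1) ^ (2 * md s * Fintype.card ι)

open Classical Filter Topology in
/-- (RAT) the final theorem. -/
def T_RAT (K : Type) [Field K] [NumberField K] : Prop :=
  ∀ (ι : Type) [Fintype ι] [DecidableEq ι] (ω : Module.Basis ι ℤ (𝓞 K)) (s : ℕ), 6 ≤ s →
    Tendsto (fun A : ℕ => (((bx ι s A).filter fun c => ¬ Sm (ec ω c)).card : ℝ) /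
      (bx ι s A).card) atTop (𝓝 0) ∧
    (∃ δ : ℝ, 0 < δ ∧ ∃ A₀ : ℕ, ∀ A : ℕ, A₀ ≤ A → δ * ((bx ι s A).card : ℝ) ≤
      (((bx ι s A).filter fun c => Sm (ec ω c) ∧
        ∃ x : Fin s → K, x ≠ 0 ∧ ∀ i, qf (fun p => (ec ω c i p : K)) x = 0).card : ℝ)) ∧
    Tendsto (fun A : ℕ => (((bx ι s A).filter fun c => Sm (ec ω c) ∧ LS (ec ω c) ∧
        ∃ x : Fin s → K, x ≠ 0 ∧ ∀ i, qf (fun p => (ec ω c i p : K)) x = 0).card : ℝ) /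
      (((bx ι s A).filter fun c => Sm (ec ω c) ∧ LS (ec ω c)).card : ℝ)) atTop (𝓝 1) ∧
    ∀ ε : ℝ, 0 < ε → ∃ (C : ℝ) (A₀ : ℕ), ∀ A : ℕ, A₀ ≤ A →
      (((bx ι s A).filter fun c => LS (ec ω c) ∧ ¬ ∃ x : Fin s → 𝓞 K, x ≠ 0 ∧
        (∀ i, qf (ec ω c i) x = 0) ∧
        ∀ j (w : InfinitePlace K), w (x j : K) ^ (s - 4) ≤ C * (A : ℝ) ^ 2).card : ℝ) ≤
      ε * ((bx ι s A).card : ℝ)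

end Pool.Agent.H32.RK
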