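import Pool.Agent.H1.RK.IDS
import Pool.Agent.H1.RK.NCL
import Pool.Agent.H1.RK.PKP
import Pool.Agent.H1.RK.SEP
import Pool.Agent.H11.RK.NEW
import Pool.Agent.H11.RK.TRB
import Pool.Agent.H14.RK.CNT
import Pool.Agent.H14.RK.DLT
import Pool.Agent.H16.RK.BDS
import Pool.Agent.H20.RK.DUB
import Pool.Agent.H20.RK.LAT
import Pool.Agent.H20.RK.LOW
import Pool.Agent.H20.RK.PCK
import Pool.Agent.H25.RK.DIA
import Pool.Agent.H29.RK.AQO
import Pool.Agent.H29.RK.EXF
import Pool.Agent.H29.RK.HEN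
import Pool.Agent.H32.RK.DL1
import Pool.Agent.H33.RK.DUA
import Pool.Agent.H33.RK.NRM
import Pool.Agent.H35.RK.RZB
import Pool.Agent.H36.RK.AQC
import Pool.Agent.H36.RK.CHN
import Pool.Agent.H36.RK.HP
import Pool.Agent.H38.RK.PNB
import Pool.Agent.H38.RK.PS3
import Pool.Agent.H39.RK.PIG
import Pool.Agent.H4.RK.AQD
import Pool.Agent.H4.RK.VAR
import Pool.Agent.H40.RK.LOC
import Pool.Agent.H40.RK.SPL
import Pool.Agent.H45.RK.BDI
import Pool.Agent.H45.RK.LPC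
import Pool.Agent.H47.RK.LIN
import Pool.Agent.H48.RK.CLA
import Pool.Agent.H49.RK.CL2
import Pool.Agent.H49.RK.SMP
import Pool.Agent.H51.RK.PCN
import Pool.Agent.H51.RK.SMM
import Pool.Agent.H52.RK.CUW
import Pool.Agent.H52.RK.SIE
import Pool.Agent.H54.RK.PA1
import Pool.Agent.H54.RK.WFN
import Pool.Agent.H56.RK.DIB
import Pool.Agent.H58.RK.CMP
import Pool.Agent.H58.RK.COV
import Pool.Agent.H58.RK.CRD
import Pool.Agent.H58.RK.PS1
import Pool.Agent.H58.RK.PS2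
import Pool.Agent.H60.RK.AQB
import Pool.Agent.H60.RK.DVP
import Pool.Agent.H61.RK.CRT
import Pool.Agent.H63.RK.AQA
import Pool.Agent.H63.RK.FRQ
import Pool.Agent.H63.RK.RUV
import Pool.Agent.H64.RK.CUB
import Pool.Agent.H68.RK.RFX
import Pool.Agent.H7.RK.CLS
import Pool.Agent.H7.RK.SPN
import Pool.Agent.H70.RK.RNB
import Pool.Agent.H72.RK.PX2
import Pool.Agent.H74.RK.DEP
import Pool.Agent.H74.RK.QPZ
import Pool.Agent.H75.RK.HEC
import Pool.Agent.H75.RK.MN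
import Pool.Agent.H75.RK.PUV
import Pool.Agent.H75.RK.SEC
import Pool.Agent.H80.RK.ZST
import Pool.Agent.H81.RK.CMD
import Pool.Agent.H81.RK.PX1
import Pool.Agent.H81.RK.SZL
import Pool.Agent.H82.RK.PAG
import Pool.Agent.H90.RK.POS
import Pool.Agent.H90.RK.RAT
import Pool.Agent.H96.RK.STR
import Pool.Agent.H98.RK.PBD
import Pool.Agent.H98.RK.UPP
import Pool.Agent.H99.RK.PFX
import Pool.Agent.H99.RK.TRF

/-!
Assembly of the rows of the board hpk_modules (`MP_63b6b1_nt`).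
-/

set_option autoImplicit false

namespace Pool.Agent.H32.RK.All

open Pool.Agent.H32.RK

theorem x_DUB (K : Type) [Field K] [NumberField K] : T_DUB K := Pool.Agent.H20.RK.pf_DUB K

theorem x_CMD (K : Type) [Field K] [NumberField K] : T_CMD K := Pool.Agent.H81.RK.pf_CMD K (x_DUB K)

theorem x_PUV : T_PUV := Pool.Agent.H75.RK.pf_PUV

theorem x_CMP (K : Type) [Field K] [NumberField K] : T_CMP K := Pool.Agent.H58.RK.pf_CMP K

theorem x_LOW (K : Type) [Field K] [NumberField K] : T_LOW K := Pool.Agent.H20.RK.pf_LOW K (x_CMP K)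

theorem x_COV (K : Type) [Field K] [NumberField K] : T_COV K := Pool.Agent.H58.RK.pf_COV K

theorem x_COI (K : Type) [Field K] [NumberField K] : T_COI K := Pool.Agent.H58.RK.pf_COI K (x_LOW K) (x_COV K)

theorem x_PCK (K : Type) [Field K] [NumberField K] : T_PCK K := Pool.Agent.H20.RK.pf_PCK K

theorem x_EXF (K : Type) [Field K] [NumberField K] : T_EXF K := Pool.Agent.H29.RK.pf_EXF K

theorem x_AQB : T_AQB := Pool.Agent.H60.RK.pf_AQB

theorem x_NRM (K : Type) [Field K] [NumberField K] : T_NRM K := Pool.Agent.H33.RK.pf_NRM K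

theorem x_IDS (K : Type) [Field K] [NumberField K] : T_IDS K := Pool.Agent.H1.RK.pf_IDS K

theorem x_AQA : T_AQA := Pool.Agent.H63.RK.pf_AQA

theorem x_VAR (K : Type) [Field K] [NumberField K] : T_VAR K := Pool.Agent.H4.RK.pf_VAR K (x_EXF K)

theorem x_TRF (K : Type) [Field K] [NumberField K] : T_TRF K := Pool.Agent.H99.RK.pf_TRF K (x_CMP K)

theorem x_PFX : T_PFX := Pool.Agent.H99.RK.pf_PFX

theorem x_CHN (K : Type) [Field K] [NumberField K] : T_CHN K := Pool.Agent.H36.RK.pf_CHN K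

theorem x_LAT (K : Type) [Field K] [NumberField K] : T_LAT K := Pool.Agent.H20.RK.pf_LAT K (x_PCK K) (x_NRM K)

theorem x_TRB (K : Type) [Field K] [NumberField K] : T_TRB K := Pool.Agent.H11.RK.pf_TRB K (x_LAT K) (x_NRM K) (x_CMP K)

theorem x_PNB (K : Type) [Field K] [NumberField K] : T_PNB K := Pool.Agent.H38.RK.pf_PNB K x_PFX x_PUV (x_CHN K) (x_TRB K)

theorem x_DVP (K : Type) [Field K] [NumberField K] : T_DVP K := Pool.Agent.H60.RK.pf_DVP K

theorem x_HEN (K : Type) [Field K] [NumberField K] : T_HEN K := Pool.Agent.H29.RK.pf_HEN K (x_DVP K)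

theorem x_AQC : T_AQC := Pool.Agent.H36.RK.pf_AQC

theorem x_AQD : T_AQD := Pool.Agent.H4.RK.pf_AQD x_AQA x_AQB x_AQC

theorem x_QPZ (K : Type) [Field K] [NumberField K] : T_QPZ K := Pool.Agent.H74.RK.pf_QPZ K

theorem x_SPL (K : Type) [Field K] [NumberField K] : T_SPL K := Pool.Agent.H40.RK.pf_SPL K

theorem x_CRT : T_CRT := Pool.Agent.H61.RK.pf_CRT

theorem x_UPP (K : Type) [Field K] [NumberField K] : T_UPP K := Pool.Agent.H98.RK.pf_UPP K (x_LAT K) (x_NRM K)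

theorem x_PIG (K : Type) [Field K] [NumberField K] : T_PIG K := Pool.Agent.H39.RK.pf_PIG K (x_LOW K) (x_UPP K) (x_PCK K)

theorem x_PA1 (K : Type) [Field K] [NumberField K] : T_PA1 K := Pool.Agent.H54.RK.pf_PA1 K (x_LAT K) (x_NRM K)

theorem x_LIN : T_LIN := Pool.Agent.H47.RK.pf_LIN

theorem x_PCN (K : Type) [Field K] [NumberField K] : T_PCN K := Pool.Agent.H51.RK.pf_PCN K (x_PA1 K) x_LIN (x_COI K) (x_LAT K) (x_UPP K) (x_NRM K)

theorem x_FRQ (K : Type) [Field K] [NumberField K] : T_FRQ K := Pool.Agent.H63.RK.pf_FRQ K (x_DUB K) (x_CMD K)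

theorem x_SPN (K : Type) [Field K] [NumberField K] : T_SPN K := Pool.Agent.H7.RK.pf_SPN K (x_PIG K)

theorem x_DUA (K : Type) [Field K] [NumberField K] : T_DUA K := Pool.Agent.H33.RK.pf_DUA K

theorem x_DIB (K : Type) [Field K] [NumberField K] : T_DIB K := Pool.Agent.H56.RK.pf_DIB K (x_FRQ K) (x_DUB K) (x_SPN K) (x_DUA K) (x_UPP K)

theorem x_CNT (K : Type) [Field K] [NumberField K] : T_CNT K := Pool.Agent.H14.RK.pf_CNT K (x_LAT K) (x_NRM K) (x_DUA K)

theorem x_CL2 (K : Type) [Field K] [NumberField K] : T_CL2 K := Pool.Agent.H49.RK.pf_CL2 K (x_DUA K)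

theorem x_CLS (K : Type) [Field K] [NumberField K] : T_CLS K := Pool.Agent.H7.RK.pf_CLS K (x_DUA K)

theorem x_DL1 : T_DL1 := Pool.Agent.H32.RK.pf_DL1

theorem x_DLT (K : Type) [Field K] [NumberField K] : T_DLT K := Pool.Agent.H14.RK.pf_DLT K x_LIN x_DL1

theorem x_RZB (K : Type) [Field K] [NumberField K] : T_RZB K := Pool.Agent.H35.RK.pf_RZB K

theorem x_STR (K : Type) [Field K] [NumberField K] : T_STR K := Pool.Agent.H96.RK.pf_STR K (x_SPN K) (x_DUA K)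

theorem x_ZST (K : Type) [Field K] [NumberField K] : T_ZST K := Pool.Agent.H80.RK.pf_ZST K (x_FRQ K) (x_STR K) (x_DLT K)

theorem x_NCL (K : Type) [Field K] [NumberField K] : T_NCL K := Pool.Agent.H1.RK.pf_NCL K

theorem x_PX1 (K : Type) [Field K] [NumberField K] : T_PX1 K := Pool.Agent.H81.RK.pf_PX1 K (x_ZST K) (x_CLS K) (x_CL2 K) (x_NCL K) (x_CNT K) (x_DLT K) (x_NRM K) (x_DUA K) (x_DUB K)

theorem x_NEW : T_NEW := Pool.Agent.H11.RK.pf_NEW

theorem x_DEP (K : Type) [Field K] [NumberField K] : T_DEP K := Pool.Agent.H74.RK.pf_DEP K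

theorem x_PX2 (K : Type) [Field K] [NumberField K] : T_PX2 K := Pool.Agent.H72.RK.pf_PX2 K (x_ZST K) (x_CLS K) (x_CMD K) (x_DUA K)

theorem x_DIA (K : Type) [Field K] [NumberField K] : T_DIA K := Pool.Agent.H25.RK.pf_DIA K (x_DIB K)

theorem x_PKP (K : Type) [Field K] [NumberField K] : T_PKP K := Pool.Agent.H1.RK.pf_PKP K

theorem x_SMM (K : Type) [Field K] [NumberField K] : T_SMM K := Pool.Agent.H51.RK.pf_SMM K (x_IDS K) (x_NRM K)

theorem x_PAG (K : Type) [Field K] [NumberField K] : T_PAG K := Pool.Agent.H82.RK.pf_PAG K (x_PCN K) (x_UPP K)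

theorem x_BDS (K : Type) [Field K] [NumberField K] : T_BDS K := Pool.Agent.H16.RK.pf_BDS K (x_UPP K)

theorem x_PBD (K : Type) [Field K] [NumberField K] : T_PBD K := Pool.Agent.H98.RK.pf_PBD K (x_PX1 K) (x_PX2 K) (x_PKP K) (x_NRM K)

theorem x_SEC (K : Type) [Field K] [NumberField K] : T_SEC K := Pool.Agent.H75.RK.pf_SEC K (x_PAG K) (x_SMM K) (x_PBD K) (x_PKP K) (x_DIA K) (x_DEP K) (x_NRM K) (x_UPP K)

theorem x_BDI (K : Type) [Field K] [NumberField K] : T_BDI K := Pool.Agent.H45.RK.pf_BDI K (x_PCN K)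

theorem x_HEC (K : Type) [Field K] [NumberField K] : T_HEC K := Pool.Agent.H75.RK.pf_HEC K (x_HEN K)

theorem x_WFN (K : Type) [Field K] [NumberField K] : T_WFN K := Pool.Agent.H54.RK.pf_WFN K (x_HEC K) x_CRT

theorem x_CUB : T_CUB := Pool.Agent.H64.RK.pf_CUB x_NEW

theorem x_SEP : T_SEP := Pool.Agent.H1.RK.pf_SEP

theorem x_CRD : T_CRD := Pool.Agent.H58.RK.pf_CRD

theorem x_CUW (K : Type) [Field K] [NumberField K] : T_CUW K := Pool.Agent.H52.RK.pf_CUW K x_CUB x_SEP x_CRD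

theorem x_CLA (K : Type) [Field K] [NumberField K] : T_CLA K := Pool.Agent.H48.RK.pf_CLA K (x_COV K) (x_LOW K)

theorem x_SIE (K : Type) [Field K] [NumberField K] : T_SIE K := Pool.Agent.H52.RK.pf_SIE K (x_CLA K) (x_LAT K) (x_NRM K) (x_IDS K)

theorem x_LOC (K : Type) [Field K] [NumberField K] : T_LOC K := Pool.Agent.H40.RK.pf_LOC K (x_WFN K) (x_CUW K) (x_SIE K) (x_BDS K) (x_BDI K) (x_CMP K) (x_NRM K) x_CRD

theorem x_RUV : T_RUV := Pool.Agent.H63.RK.pf_RUV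

theorem x_RFX : T_RFX := Pool.Agent.H68.RK.pf_RFX x_RUV

theorem x_PS1 (K : Type) [Field K] [NumberField K] : T_PS1 K := Pool.Agent.H58.RK.pf_PS1 K (x_CMP K)

theorem x_SMP : T_SMP := Pool.Agent.H49.RK.pf_SMP

theorem x_MN (K : Type) [Field K] [NumberField K] : T_MN K := Pool.Agent.H75.RK.pf_MN K (x_VAR K) (x_TRF K) (x_SEC K) (x_LOC K) (x_SPL K) (x_CMP K)

theorem x_AQO (K : Type) [Field K] [NumberField K] : T_AQO K := Pool.Agent.H29.RK.pf_AQO K x_AQD (x_IDS K)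

theorem x_LPC (K : Type) [Field K] [NumberField K] : T_LPC K := Pool.Agent.H45.RK.pf_LPC K (x_CMP K) (x_LAT K) (x_NRM K)

theorem x_RNB (K : Type) [Field K] [NumberField K] : T_RNB K := Pool.Agent.H70.RK.pf_RNB K x_RFX (x_LPC K) x_CRD

theorem x_HP (K : Type) [Field K] [NumberField K] : T_HP K := Pool.Agent.H36.RK.pf_HP K (x_MN K) (x_AQO K) (x_TRB K) (x_PNB K) (x_RNB K) (x_RZB K) (x_QPZ K)

theorem x_PS2 (K : Type) [Field K] [NumberField K] : T_PS2 K := Pool.Agent.H58.RK.pf_PS2 K (x_CMP K) (x_NRM K)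

theorem x_PS3 (K : Type) [Field K] [NumberField K] : T_PS3 K := Pool.Agent.H38.RK.pf_PS3 K (x_LAT K) (x_NRM K) (x_CMP K)

theorem x_POS (K : Type) [Field K] [NumberField K] : T_POS K := Pool.Agent.H90.RK.pf_POS K (x_MN K) (x_AQO K) (x_PS1 K) (x_PS2 K) (x_PS3 K) (x_SPL K) (x_NRM K)

theorem x_SZL (K : Type) [Field K] [NumberField K] : T_SZL K := Pool.Agent.H81.RK.pf_SZL K x_CRD

theorem x_RAT (K : Type) [Field K] [NumberField K] : T_RAT K := Pool.Agent.H90.RK.pf_RAT K x_SMP (x_SZL K) (x_POS K) (x_HP K) x_CRD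

end Pool.Agent.H32.RK.All
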