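import Pool.Agent.H32.RQ.Defs

/-!
# Pairs of quadratic forms over a number field: definitions

The Hasse principle for random pairs of quadratic forms in `s ≥ 6` variables over a number field
(`MP_63b6b1_nt`). The monomials, the forms and the Fejér weights are those of
`Pool.Agent.H32.RQ.Defs`.
-/

set_option autoImplicit false

open Finset NumberField Pool.Agent.H32.RQ

namespace Pool.Agent.H32.RK

/-- the degree of the number field -/
noncomputable abbrev dg (K : Type) [Field K] [NumberField K] : ℕ := Module.finrank ℚ K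

/-! ### Sizes -/

section sizes

variable {K : Type} [Field K] [NumberField K]

/-- the product over the infinite places with multiplicities -/
noncomputable def pm (D : InfinitePlace K → ℝ) : ℝ := ∏ w, D w ^ w.mult

/-- the absolute value of the norm -/
noncomputable def nm (a : K) : ℝ := pm fun w => w a

/-- all coordinates have size at most `X` at all infinite places -/
def Bd {n : Type} (X : ℝ) (x : n → 𝓞 K) : Prop := ∀ j (w : InfinitePlace K), w (x j : K) ≤ X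

theorem fin_vk (s : ℕ) (X : ℝ) : {x : Fin s → 𝓞 K | Bd X x}.Finite := by
  have h1 := NumberField.Embeddings.finite_of_norm_le K ℂ X
  have h2 : {a : 𝓞 K | ∀ w : InfinitePlace K, w (a : K) ≤ X}.Finite := by
    refine Set.Finite.subset (h1.preimage (f := fun a : 𝓞 K => (a : K)) ?_) ?_
    · intro a _ b _ h
      exact RingOfIntegers.ext h
    · intro a ha
      refine ⟨RingOfIntegers.isIntegral_coe a, fun φ => ?_⟩
      exact ha (InfinitePlace.mk φ)
  refine Set.Finite.subset (Set.Finite.pi' fun _ : Fin s => h2) ?_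
  intro x hx j w
  exact hx j w

/-- the integral vectors of size at most `X` -/
noncomputable def vk (K : Type) [Field K] [NumberField K] (s : ℕ) (X : ℝ) :
    Finset (Fin s → 𝓞 K) := (fin_vk s X).toFinset

/-- the element is in the dual of the ring of integers -/
def InD (a : K) : Prop := ∀ b : 𝓞 K, ∃ n : ℤ, Algebra.trace ℚ K (a * b) = n

/-- the ideal of the minors -/
def gi {R : Type} [CommRing R] {s : ℕ} (x y : Fin s → R) : Ideal R :=
  Ideal.span (Set.range fun p : Fin s × Fin s => mnr x y p.1 p.2)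

/-- an integral combination of the monomials -/
def cb {s : ℕ} (a : Mon s → ℤ) (x : Fin s → 𝓞 K) : 𝓞 K := ∑ p, (a p : 𝓞 K) * nu x p

/-- the vector is supported on three coordinates -/
def S3 {s : ℕ} (l : Fin s → 𝓞 K) : Prop := ∃ t : Fin 3 → Fin s, ∀ i, (∀ a, t a ≠ i) → l i = 0

/-- `x` is not orthogonal to a small vector supported on three coordinates -/
def Sup {s : ℕ} (R : ℝ) (x : Fin s → 𝓞 K) : Prop :=
  ∀ l : Fin s → 𝓞 K, S3 l → Bd R l → ∑ i, l i * x i = 0 → l = 0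

/-- all vectors which are close to the line of `x` lie on the line of `x` -/
def Iso {s : ℕ} (D : ℝ) (x : Fin s → 𝓞 K) : Prop :=
  ∀ z : Fin s → 𝓞 K, (∀ i j (w : InfinitePlace K), w ((mnr x z i j : 𝓞 K) : K) ≤ D) →
    ∀ i j, mnr x z i j = 0

/-- the vector has size at least `X / 2` at all places -/
def Bg {s : ℕ} (X : ℝ) (x : Fin s → 𝓞 K) : Prop :=
  ∀ w : InfinitePlace K, ∃ i, X < 2 * w (x i : K)

/-- good vectors of size `b ^ 4` -/
structure Gd {s : ℕ} (b : ℕ) (c : ℝ) (x : Fin s → 𝓞 K) : Prop where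
  bd : Bd ((b : ℝ) ^ 4) x
  big : Bg ((b : ℝ) ^ 4) x
  prm : Prm x
  sup : Sup (b : ℝ) x
  iso : Iso (c * (b : ℝ) ^ 3) x

open Classical in
/-- the good vectors -/
noncomputable def GS (K : Type) [Field K] [NumberField K] (s b : ℕ) (c : ℝ) :
    Finset (Fin s → 𝓞 K) := (vk K s ((b : ℝ) ^ 4)).filter (Gd b c)

/-- the pair has a nonzero integral zero `x` with `|x_j|_w ^ (s - 4) ≤ C A ^ 2` -/
def SZ {s : ℕ} (C : ℝ) (A : ℕ) (c : Fin 2 → Mon s → 𝓞 K) : Prop :=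
  ∃ x : Fin s → 𝓞 K, x ≠ 0 ∧ (∀ i, qf (c i) x = 0) ∧
    ∀ j (w : InfinitePlace K), w (x j : K) ^ (s - 4) ≤ C * (A : ℝ) ^ 2

/-- the pair has a nonzero zero over every completion -/
def LS {s : ℕ} (c : Fin 2 → Mon s → 𝓞 K) : Prop :=
  (∀ φ : K →+* ℝ, ∃ x : Fin s → ℝ, x ≠ 0 ∧ ∀ i, qf (fun p => φ (c i p)) x = 0) ∧
  (∀ φ : K →+* ℂ, ∃ x : Fin s → ℂ, x ≠ 0 ∧ ∀ i, qf (fun p => φ (c i p)) x = 0) ∧
  ∀ v : IsDedekindDomain.HeightOneSpectrum (𝓞 K), ∃ x : Fin s → v.adicCompletion K,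
    x ≠ 0 ∧ ∀ i, qf (fun p => algebraMap K (v.adicCompletion K) (c i p)) x = 0

/-- the intersection is smooth -/
def Sm {s : ℕ} (c : Fin 2 → Mon s → 𝓞 K) : Prop :=
  ∀ x : Fin s → AlgebraicClosure K, x ≠ 0 →
    (∀ i, qf (fun p => algebraMap K (AlgebraicClosure K) (c i p)) x = 0) →
    LinearIndependent (AlgebraicClosure K)
      fun i => dq (fun p => algebraMap K (AlgebraicClosure K) (c i p)) x

end sizes

/-! ### The box -/

section box

variable {K : Type} [Field K] [NumberField K] {ι : Type} [Fintype ι]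

/-- the element with the coordinates `v` -/
noncomputable def el (ω : Module.Basis ι ℤ (𝓞 K)) (v : ι → ℤ) : 𝓞 K := ∑ l, v l • ω l

/-- the pair with the coordinates `c` -/
noncomputable def ec {s : ℕ} (ω : Module.Basis ι ℤ (𝓞 K)) (c : Fin 2 → Mon s → ι → ℤ) :
    Fin 2 → Mon s → 𝓞 K := fun i p => el ω (c i p)

/-- the coordinate vectors in `[-A, A]` -/
noncomputable def bo (ι : Type) [Fintype ι] [DecidableEq ι] (A : ℕ) : Finset (ι → ℤ) :=
  Fintype.piFinset fun _ => Finset.Icc (-(A : ℤ)) A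

/-- the pairs of quadratic forms with coordinates in `[-A, A]` -/
noncomputable def bx (ι : Type) [Fintype ι] [DecidableEq ι] (s A : ℕ) :
    Finset (Fin 2 → Mon s → ι → ℤ) :=
  Fintype.piFinset fun _ => Fintype.piFinset fun _ => bo ι A

end box

/-! ### The random model -/

section model

variable {K : Type} [Field K] [NumberField K] {ι : Type} [Fintype ι]
  (ω : Module.Basis ι ℤ (𝓞 K)) (Q : ℕ) [NeZero Q]

/-- the coordinates of the linear form `a ↦ ⟨j, ν a⟩` -/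
noncomputable def lf (j : ι → ZMod Q) (ν : 𝓞 K) (l : ι) : ZMod Q :=
  ∑ m, j m * ((ω.repr (ν * ω l) m : ℤ) : ZMod Q)

/-- the coordinates of the value at `x` of the form with the coordinates `F` -/
noncomputable def qc {s : ℕ} (F : Mon s → ι → ZMod Q) (x : Fin s → 𝓞 K) (m : ι) : ZMod Q :=
  ∑ p, ∑ l, F p l * ((ω.repr (nu x p * ω l) m : ℤ) : ZMod Q)

/-- the correlation of two vectors at the frequencies `j`, `k` -/
noncomputable def rr {s : ℕ} (J : ℕ) (x y : Fin s → 𝓞 K) (j k : ι → ZMod Q) : ℝ :=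
  ∏ p : Mon s, ∏ l, tri Q J (lf ω Q j (nu x p) l + lf ω Q k (nu y p) l)

/-- the local factor at the frequency `j` -/
noncomputable def kp (W T : ℕ) (j : ι → ZMod Q) : ℝ := ∏ m, kap Q W T (j m)

/-- the probability of two common zeros -/
noncomputable def pp {s : ℕ} [DecidableEq ι] (J : ℕ) (x y : Fin s → 𝓞 K) : ℝ :=
  (∑ j : ι → ZMod Q, ∑ k : ι → ZMod Q, rr ω Q J x y j k) / (Q : ℝ) ^ (2 * Fintype.card ι)

/-- the contribution of the frequencies which are not local -/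
noncomputable def pk {s : ℕ} [DecidableEq ι] (J W T : ℕ) (x y : Fin s → 𝓞 K) : ℝ :=
  (∑ j : ι → ZMod Q, ∑ k : ι → ZMod Q, (1 - kp Q W T j) * rr ω Q J x y j k) /
    (Q : ℝ) ^ (2 * Fintype.card ι)

/-- the frequencies at which the correlation does not vanish -/
noncomputable def zs {s : ℕ} [DecidableEq ι] (J : ℕ) (x y : Fin s → 𝓞 K) :
    Finset ((ι → ZMod Q) × (ι → ZMod Q)) :=
  Finset.univ.filter fun q => ∀ (p : Mon s) (l : ι),
    |(lf ω Q q.1 (nu x p) l + lf ω Q q.2 (nu y p) l).valMinAbs| < (J : ℤ)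

/-- the number of zeros in `S` -/
noncomputable def nn {s : ℕ} (S : Finset (Fin s → 𝓞 K)) (F : Fin 2 → Mon s → ι → ZMod Q) : ℝ :=
  ∑ x ∈ S, if ∀ i m, qc ω Q (F i) x m = 0 then 1 else 0

/-- the number of local zeros in `S` -/
noncomputable def nl {s : ℕ} (W T : ℕ) (S : Finset (Fin s → 𝓞 K))
    (F : Fin 2 → Mon s → ι → ZMod Q) : ℝ :=
  ∑ x ∈ S, ∏ i, ∏ m, lam Q W T (qc ω Q (F i) x m)

/-- the weight of a pair -/
noncomputable def ww {s : ℕ} (J : ℕ) (F : Fin 2 → Mon s → ι → ZMod Q) : ℝ :=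
  ∏ i, ∏ p, ∏ l, fj Q J (F i p l)

end model

/-! ### Equidistribution and nets -/

open Classical in
/-- the number of the points of `X` whose image is in a disc of radius `η ≥ 1` is at most
`C (η / A) ^ e |X|` -/
def EqD {α : Type} (e : ℕ) (C A : ℝ) (X : Finset α) (σ : α → ℂ) : Prop :=
  (∀ a ∈ X, ‖σ a‖ ≤ C * A) ∧ ∀ (θ : ℂ) (η : ℝ), 1 ≤ η →
    ((X.filter fun a => ‖σ a - θ‖ ≤ η).card : ℝ) * A ^ e ≤ C * η ^ e * X.card

/-- separated sets in discs -/
def SepD (𝕜 : Type) [RCLike 𝕜] (e : ℕ) : Prop :=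
  ∃ κ : ℝ, 0 < κ ∧ ∀ h ρ : ℝ, 0 < ρ → ρ ≤ h → ∃ G : Finset 𝕜, (κ * h / ρ) ^ e ≤ (G.card : ℝ) ∧
    (∀ g ∈ G, ‖g‖ ≤ h) ∧ ∀ g ∈ G, ∀ g' ∈ G, g ≠ g' → ρ ≤ ‖g - g'‖

/-! ### Local conditions -/

/-- the number of primitive zeros over a finite ring -/
noncomputable def am {R : Type} [CommRing R] {s : ℕ} (F : Fin 2 → Mon s → R) : ℕ :=
  Nat.card {x : Fin s → R // Prm x ∧ ∀ i, qf (F i) x = 0}

section places

variable {K : Type} [Field K] [NumberField K]

/-- the pair modulo an ideal -/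
def cq (𝔪 : Ideal (𝓞 K)) {s : ℕ} (c : Fin 2 → Mon s → 𝓞 K) : Fin 2 → Mon s → 𝓞 K ⧸ 𝔪 :=
  fun i p => Ideal.Quotient.mk 𝔪 (c i p)

/-- the pair has modulo `𝔭 ^ (2 t)` a primitive zero with a minor not in `𝔭 ^ t` -/
def PR {s : ℕ} (t : ℕ) (𝔭 : Ideal (𝓞 K)) (c : Fin 2 → Mon s → 𝓞 K) : Prop :=
  ∃ x : Fin s → 𝓞 K, (∃ i, x i ∉ 𝔭) ∧ (∀ i, qf (c i) x ∈ 𝔭 ^ (2 * t)) ∧
    ∃ j l, jm c x j l ∉ 𝔭 ^ t

/-- the pair has modulo `𝔭 ^ t` a primitive zero with all minors in `𝔭 ^ t` -/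
def NP {s : ℕ} (t : ℕ) (𝔭 : Ideal (𝓞 K)) (c : Fin 2 → Mon s → 𝓞 K) : Prop :=
  ∃ x : Fin s → 𝓞 K, (∃ i, x i ∉ 𝔭) ∧ (∀ i, qf (c i) x ∈ 𝔭 ^ t) ∧
    ∀ j l, jm c x j l ∈ 𝔭 ^ t

/-- the pair at an infinite place -/
noncomputable def ce (w : InfinitePlace K) {s : ℕ} (c : Fin 2 → Mon s → 𝓞 K) : Fin 2 → Mon s → ℂ :=
  fun i p => w.embedding (c i p)

/-- a complex vector which is real if the place is real -/
def Rl {n : Type} (w : InfinitePlace K) (x : n → ℂ) : Prop := w.IsReal → ∀ j, (x j).im = 0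

/-- the pair has an approximate zero of norm one at `w`, with a minor `≥ d A ^ 2` -/
def RB {s : ℕ} (w : InfinitePlace K) (d r : ℝ) (A : ℕ) (c : Fin 2 → Mon s → 𝓞 K) : Prop :=
  ∃ x : Fin s → ℂ, Rl w x ∧ (∀ j, ‖x j‖ ≤ 1) ∧ (∃ j, ‖x j‖ = 1) ∧
    (∀ i, ‖qf (ce w c i) x‖ ≤ r * A) ∧ ∃ j l, d * (A : ℝ) ^ 2 ≤ ‖jm (ce w c) x j l‖

/-- the pair has a zero of norm one at `w` at which all the minors are `< d A ^ 2` -/
def RN {s : ℕ} (w : InfinitePlace K) (d : ℝ) (A : ℕ) (c : Fin 2 → Mon s → 𝓞 K) : Prop :=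
  ∃ x : Fin s → ℂ, Rl w x ∧ (∀ j, ‖x j‖ ≤ 1) ∧ (∃ j, ‖x j‖ = 1) ∧
    (∀ i, qf (ce w c i) x = 0) ∧ ∀ j l, ‖jm (ce w c) x j l‖ < d * (A : ℝ) ^ 2

end places

/-! ### The special pair `(x_0 x_1, x_0 x_2)` -/

section special

variable {K : Type} [Field K] [NumberField K] {ι : Type} [Fintype ι] [DecidableEq ι]
  (ω : Module.Basis ι ℤ (𝓞 K))

/-- the sum of the absolute values of the coordinates of `1` -/
noncomputable def e1 : ℝ := ∑ l, |((ω.repr 1 l : ℤ) : ℝ)|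

open Classical in
/-- the pairs which are close to the special pair, at the infinite places and modulo `𝔳` -/
noncomputable def sp (s : ℕ) (𝔳 : Ideal (𝓞 K)) (A : ℕ) (r : ℝ) : Finset (Fin 2 → Mon s → ι → ℤ) :=
  (bx ι s A).filter fun c => ∀ i p, ec ω c i p - (cs s i p : 𝓞 K) ∈ 𝔳 ∧
    ∀ l, |(c i p l : ℝ) - A / (2 * e1 ω) * ((cs s i p * ω.repr 1 l : ℤ) : ℝ)| ≤ r * A

end special

end Pool.Agent.H32.RK
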