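import Pool.Agent.H32.RK.Defs

/-!
# Pairs of quadratic forms over a number field: rows, part A

Sizes and lattices, the random model, finite rings.
-/

set_option autoImplicit false

open Finset NumberField Pool.Agent.H32.RQ

namespace Pool.Agent.H32.RK

/-! ### Sizes and lattices -/

/-- (NRM) norms and products over the places. -/
def T_NRM (K : Type) [Field K] [NumberField K] : Prop :=
  (∀ (𝔤 : Ideal (𝓞 K)) (a : 𝓞 K), a ∈ 𝔤 → a ≠ 0 → (Ideal.absNorm 𝔤 : ℝ) ≤ nm (a : K)) ∧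
  (∀ a : 𝓞 K, nm (a : K) = Ideal.absNorm (Ideal.span {a})) ∧
  (∀ a b : K, nm (a * b) = nm a * nm b) ∧
  (∀ X : ℝ, pm (K := K) (fun _ => X) = X ^ dg K) ∧
  (∀ D E : InfinitePlace K → ℝ, pm (fun w => D w * E w) = pm D * pm E) ∧
  (∀ D E : InfinitePlace K → ℝ, (∀ w, 0 ≤ D w) → (∀ w, D w ≤ E w) → pm D ≤ pm E) ∧
  ∀ D : InfinitePlace K → ℝ, (∀ w, 0 < D w) → 0 < pm D

/-- (CMP) coordinates and sizes. -/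
def T_CMP (K : Type) [Field K] [NumberField K] : Prop :=
  ∀ (ι : Type) [Fintype ι] (ω : Module.Basis ι ℤ (𝓞 K)), Fintype.card ι = dg K ∧
    ∃ C : ℝ, 1 ≤ C ∧
    (∀ (a : 𝓞 K) (X : ℝ), (∀ w : InfinitePlace K, w (a : K) ≤ X) →
      ∀ l, |((ω.repr a l : ℤ) : ℝ)| ≤ C * X) ∧
    ∀ (v : ι → ℤ) (X : ℝ), (∀ l, |(v l : ℝ)| ≤ X) →
      ∀ w : InfinitePlace K, w (el ω v : K) ≤ C * X

/-- (CMD) traces and sizes. -/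
def T_CMD (K : Type) [Field K] [NumberField K] : Prop :=
  ∀ (ι : Type) [Fintype ι] (ω : Module.Basis ι ℤ (𝓞 K)), ∃ C : ℝ, 1 ≤ C ∧
    (∀ (a : K) (X : ℝ), (∀ w : InfinitePlace K, w a ≤ X) →
      ∀ l, |((Algebra.trace ℚ K (a * ω l) : ℚ) : ℝ)| ≤ C * X) ∧
    ∀ (a : K) (X : ℝ), (∀ l, |((Algebra.trace ℚ K (a * ω l) : ℚ) : ℝ)| ≤ X) →
      ∀ w : InfinitePlace K, w a ≤ C * X

/-- (DUB) the dual basis. -/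
def T_DUB (K : Type) [Field K] [NumberField K] : Prop :=
  ∀ (ι : Type) [Fintype ι] (ω : Module.Basis ι ℤ (𝓞 K)),
    (∀ t : ι → ℚ, ∃ a : K, ∀ l, Algebra.trace ℚ K (a * ω l) = t l) ∧
    (∀ a b : K, (∀ l, Algebra.trace ℚ K (a * ω l) = Algebra.trace ℚ K (b * ω l)) → a = b) ∧
    ∀ a : K, (∀ l, ∃ n : ℤ, Algebra.trace ℚ K (a * ω l) = n) → InD a

/-- (DUA) the dual of the ring of integers is an `𝓞 K`-module with bounded denominators. -/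
def T_DUA (K : Type) [Field K] [NumberField K] : Prop :=
  (∀ a b : K, InD a → InD b → InD (a + b)) ∧ (∀ a b : K, InD a → InD b → InD (a - b)) ∧
  (∀ (a : 𝓞 K) (b : K), InD b → InD (a * b)) ∧ (∀ a : 𝓞 K, InD (a : K)) ∧
  ∃ n₀ : ℕ, 1 ≤ n₀ ∧ ∀ a : K, InD a → ∃ b : 𝓞 K, (n₀ : K) * a = b

/-- (PCK) packing. -/
def T_PCK (K : Type) [Field K] [NumberField K] : Prop :=
  ∃ C : ℝ, 1 ≤ C ∧ ∀ (T : Finset K) (D : InfinitePlace K → ℝ) (δ : ℝ), 0 < δ → δ ≤ 1 →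
    (∀ w, 0 < D w) → (∀ t ∈ T, ∀ t' ∈ T, t ≠ t' →
      (∀ w : InfinitePlace K, w (t - t') ≤ D w) ∧ ∃ w : InfinitePlace K, δ * D w ≤ w (t - t')) →
    (T.card : ℝ) ≤ (C / δ) ^ dg K

/-- (LAT) upper bound for the number of lattice points. -/
def T_LAT (K : Type) [Field K] [NumberField K] : Prop :=
  ∃ C : ℝ, 1 ≤ C ∧ ∀ (T : Finset K) (D : InfinitePlace K → ℝ) (ν : ℝ), 0 < ν →
    (∀ w, 0 < D w) → (∀ t ∈ T, ∀ t' ∈ T, t ≠ t' →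
      (∀ w : InfinitePlace K, w (t - t') ≤ D w) ∧ ν ≤ nm (t - t')) →
    (T.card : ℝ) ≤ C * (1 + pm D / ν)

/-- (UPP) upper bound for the number of integers. -/
def T_UPP (K : Type) [Field K] [NumberField K] : Prop :=
  ∃ C : ℝ, 1 ≤ C ∧ ∀ (S : Finset (𝓞 K)) (X : ℝ), 1 ≤ X →
    (∀ a ∈ S, ∀ b ∈ S, ∀ w : InfinitePlace K, w ((a : K) - b) ≤ X) →
    (S.card : ℝ) ≤ C * X ^ dg K

/-- (LOW) lower bound for the number of integers. -/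
def T_LOW (K : Type) [Field K] [NumberField K] : Prop :=
  ∃ c : ℝ, 0 < c ∧ ∀ X : ℝ, 1 ≤ X → ∃ S : Finset (𝓞 K),
    (∀ a ∈ S, ∀ w : InfinitePlace K, w (a : K) ≤ X) ∧ c * X ^ dg K ≤ (S.card : ℝ)

/-- (COV) every archimedean point is close to an integer. -/
def T_COV (K : Type) [Field K] [NumberField K] : Prop :=
  ∃ C : ℝ, 1 ≤ C ∧ ∀ ζ : InfinitePlace K → ℂ, (∀ w, w.IsReal → (ζ w).im = 0) →
    ∃ a : 𝓞 K, ∀ w : InfinitePlace K, ‖w.embedding (a : K) - ζ w‖ ≤ C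

/-- (COI) every element is close to an element of a given ideal. -/
def T_COI (K : Type) [Field K] [NumberField K] : Prop :=
  ∃ C : ℝ, 1 ≤ C ∧ ∀ (𝔤 : Ideal (𝓞 K)) (θ : K), 𝔤 ≠ ⊥ →
    ∃ a ∈ 𝔤, ∀ w : InfinitePlace K, w (θ - (a : 𝓞 K)) ^ dg K ≤ C * Ideal.absNorm 𝔤

/-- (IDS) sums over ideals. -/
def T_IDS (K : Type) [Field K] [NumberField K] : Prop :=
  ∃ C : ℝ, 1 ≤ C ∧
    (∀ (X : ℝ) (P : Finset (Ideal (𝓞 K))), 1 ≤ X →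
      (∀ 𝔤 ∈ P, 𝔤 ≠ ⊥ ∧ (Ideal.absNorm 𝔤 : ℝ) ≤ X) → (P.card : ℝ) ≤ C * X) ∧
    (∀ (n w : ℕ) (P : Finset (Ideal (𝓞 K))), 2 ≤ n → 1 ≤ w → (∀ 𝔤 ∈ P, w < Ideal.absNorm 𝔤) →
      ∑ 𝔤 ∈ P, 1 / (Ideal.absNorm 𝔤 : ℝ) ^ n ≤ C / (w : ℝ) ^ (n - 1)) ∧
    ∀ (n : ℕ) (P : Finset (Ideal (𝓞 K))), 2 ≤ n → (∀ 𝔤 ∈ P, 𝔤 ≠ ⊥) →
      ∑ 𝔤 ∈ P, 1 / (Ideal.absNorm 𝔤 : ℝ) ^ n ≤ C

/-! ### The random model -/

/-- (EXF) the expectation of a character over the quadratic forms. -/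
def T_EXF (K : Type) [Field K] [NumberField K] : Prop :=
  ∀ (ι : Type) [Fintype ι] [DecidableEq ι] (ω : Module.Basis ι ℤ (𝓞 K)) (s Q J : ℕ) [NeZero Q]
    (x y : Fin s → 𝓞 K) (j k : ι → ZMod Q), 1 ≤ J → 2 * J ≤ Q →
    ∑ f : Mon s → ι → ZMod Q, ((∏ p, ∏ l, fj Q J (f p l) : ℝ) : ℂ) *
      ZMod.stdAddChar (∑ m, (j m * qc ω Q f x m + k m * qc ω Q f y m)) =
      ((((Q : ℝ) / J) ^ (md s * Fintype.card ι) * rr ω Q J x y j k : ℝ) : ℂ)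

/-- (VAR) the second moment of the difference. -/
def T_VAR (K : Type) [Field K] [NumberField K] : Prop :=
  ∀ (ι : Type) [Fintype ι] [DecidableEq ι] (ω : Module.Basis ι ℤ (𝓞 K)) (s Q J W T : ℕ)
    [NeZero Q] (S : Finset (Fin s → 𝓞 K)), 1 ≤ J → 2 * J ≤ Q → 1 ≤ W → W ∣ Q → T ∣ Q →
    2 * W ≤ T →
    ∑ F : Fin 2 → Mon s → ι → ZMod Q, ww Q J F * (nn ω Q S F - nl ω Q W T S F) ^ 2 ≤
      ((Q : ℝ) / J) ^ (2 * md s * Fintype.card ι) *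
        ∑ x ∈ S, ∑ y ∈ S, 2 * pk ω Q J W T x y * pp ω Q J x y

open Classical in
/-- (TRF) from the random model to the box. -/
def T_TRF (K : Type) [Field K] [NumberField K] : Prop :=
  ∀ (ι : Type) [Fintype ι] [DecidableEq ι] (ω : Module.Basis ι ℤ (𝓞 K)), ∃ C : ℝ, 1 ≤ C ∧
    ∀ (s A J Q W T : ℕ) [NeZero Q] (B : ℝ) (S : Finset (Fin s → 𝓞 K))
    (E : Finset (Fin 2 → Mon s → ι → ℤ)) (M₀ : ℝ), 1 ≤ A → 1 ≤ J → Q = 2 * A * J → 1 ≤ W →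
    W ∣ Q → T ∣ Q → 2 * W ≤ T → 2 * A < Q → C * md s * A * B ^ 2 < Q → (∀ x ∈ S, Bd B x) →
    E ⊆ bx ι s A → 0 ≤ M₀ →
    (∀ c ∈ E, (∀ x ∈ S, ∃ i, qf (ec ω c i) x ≠ 0) ∧
      M₀ ≤ ((S.filter fun x => ∀ i m, (W : ℤ) ∣ ω.repr (qf (ec ω c i) x) m ∧
        2 * |ω.repr (qf (ec ω c i) x) m| ≤ T).card : ℝ)) →
    (E.card : ℝ) * ((4 / 10) ^ (2 * md s * Fintype.card ι) *
      (((W : ℝ) / T) ^ (2 * Fintype.card ι) * (4 / 10) ^ (2 * Fintype.card ι) * M₀) ^ 2) ≤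
      ∑ F : Fin 2 → Mon s → ι → ZMod Q, ww Q J F * (nn ω Q S F - nl ω Q W T S F) ^ 2

/-! ### Densities over finite rings -/

/-- (AQA) the number of the forms which vanish at two vectors. -/
def T_AQA : Prop :=
  ∀ (R : Type) [CommRing R] [Finite R] (s : ℕ) (x y : Fin s → R), Prm x → Prm y →
    Nat.card {f : Mon s → R // qf f x = 0} * Nat.card R = Nat.card R ^ md s ∧
    Nat.card {f : Mon s → R // qf f x = 0 ∧ qf f y = 0} * Nat.card R ^ 2 ≤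
      Nat.card R ^ md s * Nat.card (R ⧸ gi x y)

open Classical in
/-- (AQB) the sum of the squares of the indices. -/
def T_AQB : Prop :=
  ∀ (R : Type) [CommRing R] [Fintype R] (s : ℕ) (x : Fin s → R) (𝒥 : Finset (Ideal R)), Prm x →
    (∀ I, I ∈ 𝒥) →
    ∑ y : Fin s → R with Prm y, (Nat.card (R ⧸ gi x y) : ℝ) ^ 2 ≤
      (Nat.card R : ℝ) ^ s * ∑ I ∈ 𝒥, (Nat.card (R ⧸ I) : ℝ) ^ 3 / (Nat.card (R ⧸ I) : ℝ) ^ s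

open Classical in
/-- (AQC) the number of the vectors which are not primitive. -/
def T_AQC : Prop :=
  ∀ (R : Type) [CommRing R] [Fintype R] (s : ℕ) (𝒥 : Finset (Ideal R)), (∀ I, I ∈ 𝒥) →
    (Nat.card {x : Fin s → R // ¬ Prm x} : ℝ) ≤
      (Nat.card R : ℝ) ^ s * ∑ I ∈ 𝒥.erase ⊤, 1 / (Nat.card (R ⧸ I) : ℝ) ^ s

open Classical in
/-- (AQD) for most pairs the density is at least one half. -/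
def T_AQD : Prop :=
  ∀ (R : Type) [CommRing R] [Finite R] (s : ℕ) (𝒥 : Finset (Ideal R)), 6 ≤ s → (∀ I, I ∈ 𝒥) →
    (Nat.card {F : Fin 2 → Mon s → R // 2 * am F < Nat.card R ^ (s - 2)} : ℝ) ≤
      12 * (Nat.card R : ℝ) ^ (2 * md s) * ∑ I ∈ 𝒥.erase ⊤, 1 / (Nat.card (R ⧸ I) : ℝ) ^ 3

/-- (AQO) for most pairs the density modulo an ideal is at least one half. -/
def T_AQO (K : Type) [Field K] [NumberField K] : Prop :=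
  ∃ C : ℝ, 1 ≤ C ∧ ∀ (s w₀ : ℕ) (𝔪 : Ideal (𝓞 K)), 6 ≤ s → 1 ≤ w₀ → 𝔪 ≠ ⊥ →
    (∀ 𝔭 : Ideal (𝓞 K), 𝔭.IsPrime → 𝔪 ≤ 𝔭 → w₀ < Ideal.absNorm 𝔭) →
    (Nat.card {F : Fin 2 → Mon s → 𝓞 K ⧸ 𝔪 // 2 * am F < Ideal.absNorm 𝔪 ^ (s - 2)} : ℝ) *
      (w₀ : ℝ) ^ 2 ≤ C * (Ideal.absNorm 𝔪 : ℝ) ^ (2 * md s)

open Classical in
/-- (TRB) from the residues to the box. -/
def T_TRB (K : Type) [Field K] [NumberField K] : Prop :=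
  ∀ (ι : Type) [Fintype ι] [DecidableEq ι] (ω : Module.Basis ι ℤ (𝓞 K)), ∃ C : ℝ, 1 ≤ C ∧
    ∀ (s A : ℕ) (𝔪 : Ideal (𝓞 K)) (E : Set (Fin 2 → Mon s → 𝓞 K ⧸ 𝔪)), 𝔪 ≠ ⊥ → 1 ≤ A →
    Ideal.absNorm 𝔪 ≤ A →
    (((bx ι s A).filter fun c => cq 𝔪 (ec ω c) ∈ E).card : ℝ) *
      (Ideal.absNorm 𝔪 : ℝ) ^ (2 * md s) ≤
      C ^ (2 * md s) * (2 * (A : ℝ) + 1) ^ (2 * md s * Fintype.card ι) * Nat.card E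

/-! ### Bad pairs modulo a prime power -/

/-- (PUV) the number of the pairs of proportional vectors over a local ring. -/
def T_PUV : Prop :=
  ∀ (R : Type) [CommRing R] [Finite R] [IsLocalRing R] [IsPrincipalIdealRing R] (n : ℕ)
    (𝒥 : Finset (Ideal R)), 1 ≤ n → (∀ I, I ∈ 𝒥) →
    Nat.card {q : (Fin n → R) × (Fin n → R) // ∀ j l, q.1 j * q.2 l = q.1 l * q.2 j} ≤
      Nat.card R ^ n * ∑ I ∈ 𝒥, Nat.card I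

/-- (PFX) the number of the pairs which are bad at a given vector. -/
def T_PFX : Prop :=
  ∀ (R : Type) [CommRing R] [Finite R] (s M : ℕ) (i₀ : Fin s) (x : Fin s → R), 2 ≤ s →
    x i₀ = 1 →
    Nat.card {q : (Fin (s - 1) → R) × (Fin (s - 1) → R) //
      ∀ j l, q.1 j * q.2 l = q.1 l * q.2 j} ≤ M →
    Nat.card {F : Fin 2 → Mon s → R // (∀ i, qf (F i) x = 0) ∧ ∀ j l, jm F x j l = 0} ≤
      M * Nat.card R ^ (2 * (md s - s))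

/-- (CHN) the quotient by a prime power. -/
def T_CHN (K : Type) [Field K] [NumberField K] : Prop :=
  ∀ (𝔭 : Ideal (𝓞 K)) (t : ℕ), 𝔭.IsPrime → 𝔭 ≠ ⊥ → 1 ≤ t →
    IsLocalRing (𝓞 K ⧸ 𝔭 ^ t) ∧ IsPrincipalIdealRing (𝓞 K ⧸ 𝔭 ^ t) ∧
    ∀ 𝒥 : Finset (Ideal (𝓞 K ⧸ 𝔭 ^ t)), ∑ I ∈ 𝒥, Nat.card I ≤ 2 * Ideal.absNorm 𝔭 ^ t

open Classical in
/-- (PNB) the pairs which are bad at `𝔭` are rare. -/
def T_PNB (K : Type) [Field K] [NumberField K] : Prop :=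
  ∀ (ι : Type) [Fintype ι] [DecidableEq ι] (ω : Module.Basis ι ℤ (𝓞 K)) (s : ℕ), 2 ≤ s →
    ∃ C : ℝ, 1 ≤ C ∧ ∀ (t A : ℕ) (𝔭 : Ideal (𝓞 K)), 𝔭.IsPrime → 𝔭 ≠ ⊥ → 1 ≤ t →
    Ideal.absNorm 𝔭 ^ t ≤ A →
    (((bx ι s A).filter fun c => NP t 𝔭 (ec ω c)).card : ℝ) * (Ideal.absNorm 𝔭 : ℝ) ^ t ≤
      C * (2 * (A : ℝ) + 1) ^ (2 * md s * Fintype.card ι)

/-- (QPZ) zeros over the completions. -/
def T_QPZ (K : Type) [Field K] [NumberField K] : Prop :=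
  ∀ (s t : ℕ) (v : IsDedekindDomain.HeightOneSpectrum (𝓞 K)) (c : Fin 2 → Mon s → 𝓞 K),
    (∃ x : Fin s → v.adicCompletion K, x ≠ 0 ∧
      ∀ i, qf (fun p => algebraMap K (v.adicCompletion K) (c i p)) x = 0) →
    PR t v.asIdeal c ∨ NP t v.asIdeal c

/-- (DVP) division modulo prime powers. -/
def T_DVP (K : Type) [Field K] [NumberField K] : Prop :=
  ∀ (𝔭 : Ideal (𝓞 K)) (τ n : ℕ) (M φ : 𝓞 K), 𝔭.IsPrime → 𝔭 ≠ ⊥ → M ∈ 𝔭 ^ τ →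
    M ∉ 𝔭 ^ (τ + 1) → τ ≤ n → φ ∈ 𝔭 ^ n → ∃ ψ ∈ 𝔭 ^ (n - τ), M * ψ - φ ∈ 𝔭 ^ (n + 1)

/-- (HEN) Hensel's lemma for two quadratic forms. -/
def T_HEN (K : Type) [Field K] [NumberField K] : Prop :=
  ∀ (s τ n : ℕ) (𝔭 : Ideal (𝓞 K)) (c : Fin 2 → Mon s → 𝓞 K) (x : Fin s → 𝓞 K) (a b : Fin s),
    𝔭.IsPrime → 𝔭 ≠ ⊥ → jm c x a b ∈ 𝔭 ^ τ → jm c x a b ∉ 𝔭 ^ (τ + 1) →
    (∀ i, qf (c i) x ∈ 𝔭 ^ (2 * τ + 1)) →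
    ∃ y : Fin s → 𝓞 K, (∀ j, j ≠ a → j ≠ b → y j = x j) ∧
      (∀ j, y j - x j ∈ 𝔭 ^ (τ + 1)) ∧ ∀ i, qf (c i) y ∈ 𝔭 ^ n

/-- (HEC) a lower bound for the density modulo a prime power. -/
def T_HEC (K : Type) [Field K] [NumberField K] : Prop :=
  ∀ (s t k : ℕ) (𝔭 : Ideal (𝓞 K)) (c : Fin 2 → Mon s → 𝓞 K), 𝔭.IsPrime → 𝔭 ≠ ⊥ → 2 * t ≤ k →
    PR t 𝔭 c → Ideal.absNorm 𝔭 ^ ((k - 2 * t) * (s - 2)) ≤ am (cq (𝔭 ^ k) c)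

/-- (CRT) the densities are multiplicative. -/
def T_CRT : Prop :=
  ∀ (R S T : Type) [CommRing R] [CommRing S] [CommRing T] [Finite R] [Finite S] [Finite T]
    (e : R ≃+* S × T) (s : ℕ) (F : Fin 2 → Mon s → R),
    am F = am (fun i p => (e (F i p)).1) * am fun i p => (e (F i p)).2

/-- (SPL) splitting of an ideal. -/
def T_SPL (K : Type) [Field K] [NumberField K] : Prop :=
  ∀ W w₀ : ℕ, 1 ≤ W → ∃ 𝔴₀ 𝔴₁ : Ideal (𝓞 K), Ideal.span {(W : 𝓞 K)} = 𝔴₀ * 𝔴₁ ∧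
    𝔴₀ ⊔ 𝔴₁ = ⊤ ∧ (∀ 𝔭 : Ideal (𝓞 K), 𝔭.IsPrime → 𝔴₀ ≤ 𝔭 → Ideal.absNorm 𝔭 ≤ w₀) ∧
    (∀ 𝔭 : Ideal (𝓞 K), 𝔭.IsPrime → 𝔴₁ ≤ 𝔭 → w₀ < Ideal.absNorm 𝔭) ∧
    ∀ (𝔭 : Ideal (𝓞 K)) (k : ℕ), 𝔭.IsPrime → 𝔭 ≠ ⊥ → Ideal.absNorm 𝔭 ≤ w₀ →
      (W : 𝓞 K) ∈ 𝔭 ^ k → 𝔴₀ ≤ 𝔭 ^ k

/-- (WFN) a lower bound for the density modulo an ideal. -/
def T_WFN (K : Type) [Field K] [NumberField K] : Prop :=
  ∀ s t w₀ : ℕ, ∃ η : ℝ, 0 < η ∧ ∀ (𝔴₀ 𝔴₁ : Ideal (𝓞 K)) (c : Fin 2 → Mon s → 𝓞 K),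
    𝔴₀ ≠ ⊥ → 𝔴₁ ≠ ⊥ → 𝔴₀ ⊔ 𝔴₁ = ⊤ →
    (∀ 𝔭 : Ideal (𝓞 K), 𝔭.IsPrime → 𝔴₀ ≤ 𝔭 → Ideal.absNorm 𝔭 ≤ w₀) →
    (∀ 𝔭 : Ideal (𝓞 K), 𝔭.IsPrime → 𝔭 ≠ ⊥ → Ideal.absNorm 𝔭 ≤ w₀ →
      𝔴₀ ≤ 𝔭 ^ (2 * t) ∧ PR t 𝔭 c) →
    Ideal.absNorm 𝔴₁ ^ (s - 2) ≤ 2 * am (cq 𝔴₁ c) →
    η * (Ideal.absNorm (𝔴₀ * 𝔴₁) : ℝ) ^ (s - 2) ≤ (am (cq (𝔴₀ * 𝔴₁) c) : ℝ)

end Pool.Agent.H32.RK
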